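import Pool.Agent.H236Z.Book.Graph

namespace Pool.Agent.H236Z.Book

open Finset

namespace Par

variable (p : Par) (f : ℕ → ℕ)

def off (j : ℕ) : ℕ := 6 * ∑ j' ∈ (range j).filter (fun j' => f j' = f j), p.s j'

def slot (j t : ℕ) : ℕ := p.a (f j) + p.off f j + t

def k1 : Vx → ℕ
  | .hub _ => 0
  | .pv q => q + 1
  | .rt c => c * p.P + 1
  | .iv c j t => c * p.P + p.slot f j t + 1

def k2 : Vx → ℕ
  | .hub j => j
  | .pv _ => 0
  | .rt _ => 1
  | .iv _ j _ => j + 1

def pgN : Vx → ℕ
  | .hub j => j
  | .pv q => if q % p.P = 0 then 2 else 3 + (q % p.P + 1) % 2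
  | .rt _ => 1
  | .iv _ _ _ => 0

def lt (x y : Vx) : Prop := p.k1 f x < p.k1 f y ∨ (p.k1 f x = p.k1 f y ∧ k2 x < k2 y)

/-- `f` is a packing. -/
structure IsPack : Prop where
  lt : ∀ j < p.m, f j < p.K
  le : ∀ b < p.K, ∑ j ∈ (range p.m).filter (fun j => f j = b), p.s j ≤ p.cap b

variable {p f}

theorem decomp {c c' i i' : ℕ} (hi : i < p.P) (hi' : i' < p.P)
    (e : c * p.P + i = c' * p.P + i') : c = c' ∧ i = i' := by
  have h1 := mod_P (p := p) (c := c) hi
  have h2 := mod_P (p := p) (c := c') hi'
  rw [e, h2] at h1
  subst h1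
  exact ⟨Nat.eq_of_mul_eq_mul_right (by omega : 0 < p.P) (by omega), rfl⟩

theorem off_step {j j' : ℕ} (hjj : j < j') (e : f j = f j') :
    p.off f j + 6 * p.s j ≤ p.off f j' := by
  unfold off
  rw [← mul_add]
  refine Nat.mul_le_mul_left _ ?_
  have h1 : j ∉ (range j).filter (fun j' => f j' = f j) := by simp
  rw [add_comm, ← sum_insert h1]
  refine sum_le_sum_of_subset fun x hx => ?_
  rw [mem_insert, mem_filter, mem_range] at hx
  rw [mem_filter, mem_range]
  rcases hx with rfl | hx
  · exact ⟨hjj, e⟩
  · exact ⟨by omega, hx.2.trans e⟩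

theorem off_even (j : ℕ) : p.off f j % 2 = 0 := by unfold off; omega

namespace IsPack

variable (h : p.IsPack f)
include h

theorem off_le {j : ℕ} (hj : j < p.m) : p.off f j + 6 * p.s j ≤ 6 * p.cap (f j) := by
  refine le_trans ?_ (Nat.mul_le_mul_left 6 (h.le _ (h.lt j hj)))
  unfold off
  rw [← mul_add]
  refine Nat.mul_le_mul_left _ ?_
  have h1 : j ∉ (range j).filter (fun j' => f j' = f j) := by simp
  rw [add_comm, ← sum_insert h1]
  refine sum_le_sum_of_subset fun x hx => ?_
  rw [mem_insert, mem_filter, mem_range] at hx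
  rw [mem_filter, mem_range]
  rcases hx with rfl | hx
  · exact ⟨hj, rfl⟩
  · exact ⟨by omega, hx.2⟩

theorem slot_bd {j t : ℕ} (hj : j < p.m) (ht : t ≤ 6 * p.s j) :
    p.a (f j) ≤ p.slot f j t ∧ p.slot f j t + 2 ≤ p.a (f j + 1) ∧ 1 ≤ p.slot f j t ∧
      p.slot f j t + 2 < p.P := by
  have h1 := h.off_le hj
  have h2 := a_succ (p := p) (f j)
  have h3 := a_pos (p := p) (f j)
  have h4 := a_lt_P (p := p) (show f j + 1 ≤ p.K from h.lt j hj)
  unfold slot
  omega

theorem slot_bin {j t j' t' : ℕ} (hj : j < p.m) (ht : t ≤ 6 * p.s j) (hj' : j' < p.m)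
    (ht' : t' ≤ 6 * p.s j') (h1 : p.slot f j t ≤ p.slot f j' t' + 1)
    (h2 : p.slot f j' t' ≤ p.slot f j t + 1) : f j = f j' := by
  have b1 := h.slot_bd hj ht
  have b2 := h.slot_bd hj' ht'
  rcases lt_trichotomy (f j) (f j') with a | a | a
  · have := (a_strictMono (p := p)).monotone (show f j + 1 ≤ f j' from a)
    omega
  · exact a
  · have := (a_strictMono (p := p)).monotone (show f j' + 1 ≤ f j from a)
    omega

theorem key_inj {x y : Vx} (hx : p.valid x) (hy : p.valid y) (e1 : p.k1 f x = p.k1 f y)
    (e2 : k2 x = k2 y) : x = y := by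
  have hP := P_ge (p := p)
  cases x with
  | hub j => cases y <;> simp only [k1, k2] at e1 e2 <;> first | omega | rw [e2]
  | pv q =>
    cases y <;> simp only [k1, k2] at e1 e2
    · omega
    · congr 1; omega
    · omega
    · omega
  | rt c =>
    cases y with
    | hub j => simp only [k1] at e1; omega
    | pv q => simp only [k2] at e2; omega
    | rt c' =>
      simp only [k1] at e1
      rw [(decomp (p := p) (c := c) (c' := c') (i := 0) (i' := 0) (by omega) (by omega)
        (by omega)).1]
    | iv c' j t =>
      simp only [k1] at e1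
      have b := h.slot_bd hy.2.1 hy.2.2
      have := (decomp (p := p) (c := c) (c' := c') (i := 0) (i' := p.slot f j t) (by omega)
        (by omega) (by omega)).2
      omega
  | iv c j t =>
    have b := h.slot_bd hx.2.1 hx.2.2
    cases y with
    | hub j => simp only [k1] at e1; omega
    | pv q => simp only [k2] at e2; omega
    | rt c' =>
      simp only [k1] at e1
      have := (decomp (p := p) (c := c) (c' := c') (i := p.slot f j t) (i' := 0) (by omega)
        (by omega) (by omega)).2
      omega
    | iv c' j' t' =>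
      simp only [k1, k2] at e1 e2
      have b' := h.slot_bd hy.2.1 hy.2.2
      obtain rfl : j = j' := by omega
      have := decomp (p := p) (c := c) (c' := c') (i := p.slot f j t) (i' := p.slot f j t')
        (by omega) (by omega) (by omega)
      obtain ⟨rfl, e⟩ := this
      unfold slot at e
      obtain rfl : t = t' := by omega
      rfl

theorem lt_of_E {x y : Vx} (hE : p.E x y) : p.lt f x y := by
  unfold Par.lt
  cases x with
  | hub j =>
    cases y with
    | hub j' => exact (hE.2.2 trivial).elim
    | _ => left; simp only [k1]; omega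
  | pv q =>
    cases y with
    | pv q' => left; simp only [k1]; have := hE.1; omega
    | _ => exact hE.elim
  | rt c =>
    cases y with
    | pv q => left; simp only [k1]; have := hE.2.1; omega
    | iv c' j t =>
      obtain ⟨rfl, -, h1, h2⟩ := hE
      have := h.slot_bd h1 h2
      left; simp only [k1]; omega
    | _ => exact hE.elim
  | iv c j t =>
    cases y with
    | iv c' j' t' =>
      obtain ⟨rfl, rfl, rfl, -⟩ := hE
      left; simp only [k1, slot]; omega
    | _ => exact hE.elim

theorem E_of_adj {x y : Vx} (ha : p.Adj x y) (hl : p.lt f x y) : p.E x y := by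
  rcases ha with ha | ha
  · exact ha
  · have := h.lt_of_E ha
    unfold Par.lt at *
    omega

theorem under {x y v : Vx} (hE : p.E x y) (hx : ∀ j, x ≠ .hub j) (hv : p.valid v)
    (h1 : p.lt f x v) (h2 : p.lt f v y) : p.fr v (p.pgN x) ∧ p.pgN v ≠ p.pgN x := by
  have hP := P_ge (p := p)
  unfold Par.lt at h1 h2
  cases x with
  | hub j => exact (hx j rfl).elim
  | pv q =>
    cases y with
    | pv q' =>
      obtain ⟨rfl, -⟩ := hE
      cases v with
      | hub j => simp only [k1, k2] at h1; omega
      | pv q2 => simp only [k1, k2] at h1 h2; omega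
      | rt c =>
        simp only [k1, k2] at h1 h2
        obtain rfl : q = c * p.P := by omega
        simp [fr, pgN]
      | iv c j t =>
        simp only [k1, k2] at h1 h2
        obtain rfl : q = c * p.P + p.slot f j t := by omega
        have b := h.slot_bd hv.2.1 hv.2.2
        simp only [fr, pgN]
        rw [mod_P (by omega), if_neg (by omega)]
        have e1 := a_odd (p := p) (f j)
        have e2 := off_even (p := p) (f := f) j
        unfold slot
        omega
    | _ => exact hE.elim
  | rt c =>
    have hy : p.k1 f y ≤ c * p.P + p.P := by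
      cases y with
      | pv q => have := hE.2.2; simp only [k1]; omega
      | iv c' j t =>
        obtain ⟨rfl, -, h3, h4⟩ := hE
        have := h.slot_bd h3 h4
        simp only [k1]; omega
      | _ => exact hE.elim
    generalize p.k1 f y = Y at h2 hy
    generalize k2 y = Y2 at h2
    cases v with
    | hub j => simp only [k1, k2] at h1; omega
    | pv q =>
      simp only [k1, k2] at h1 h2
      obtain ⟨i, rfl⟩ : ∃ i, q = c * p.P + i := ⟨q - c * p.P, by omega⟩
      simp only [fr, pgN]
      rw [mod_P (by omega), if_neg (by omega)]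
      refine ⟨⟨by omega, by simp⟩, by omega⟩
    | rt c' =>
      simp only [k1, k2] at h1 h2
      have := decomp (p := p) (c := c) (c' := c') (i := c' * p.P - c * p.P) (i' := 0) (by omega)
        (by omega) (by omega)
      omega
    | iv c' j t => simp [fr, pgN]
  | iv c j t =>
    cases y with
    | iv c' j' t' =>
      obtain ⟨rfl, rfl, rfl, -, h3, h4⟩ := hE
      have b := h.slot_bd h3 h4.le
      have b' := h.slot_bd (t := t + 1) h3 h4
      have es : p.slot f j' (t + 1) = p.slot f j' t + 1 := rfl
      cases v with
      | hub j => simp only [k1, k2] at h1; omega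
      | pv q =>
        simp only [k1, k2] at h1 h2
        obtain rfl : q = c' * p.P + (p.slot f j' t + 1) := by omega
        simp only [fr, pgN]
        rw [mod_P (by omega), if_neg (by omega)]
        refine ⟨⟨by omega, Or.inr ⟨trivial, ?_⟩⟩, by omega⟩
        rintro ⟨b2, -, e⟩
        have m1 := (a_strictMono (p := p)).lt_iff_lt (a := f j') (b := b2)
        have m2 := (a_strictMono (p := p)).lt_iff_lt (a := b2) (b := f j' + 1)
        omega
      | rt c2 =>
        simp only [k1, k2] at h1 h2
        exfalso
        rcases (show c2 * p.P = c' * p.P + p.slot f j' t ∨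
          c2 * p.P = c' * p.P + (p.slot f j' t + 1) by omega) with e | e
        · have := decomp (p := p) (c := c2) (c' := c') (i := 0) (i' := p.slot f j' t) (by omega)
            (by omega) (by omega)
          omega
        · have := decomp (p := p) (c := c2) (c' := c') (i := 0) (i' := p.slot f j' t + 1)
            (by omega) (by omega) (by omega)
          omega
      | iv c2 j2 t2 =>
        simp only [k1, k2] at h1 h2
        exfalso
        have b2 := h.slot_bd hv.2.1 hv.2.2
        have ht2 := hv.2.2
        rcases (show (c2 * p.P + p.slot f j2 t2 = c' * p.P + p.slot f j' t ∧ j' < j2) ∨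
          (c2 * p.P + p.slot f j2 t2 = c' * p.P + (p.slot f j' t + 1) ∧ j2 < j') by omega)
          with e | e
        · have e1 := (decomp (p := p) (by omega) (by omega) e.1).2
          have e2 := h.slot_bin h3 h4.le hv.2.1 hv.2.2 (by omega) (by omega)
          have e3 := off_step (p := p) e.2 e2
          unfold slot at e1
          rw [e2] at e1
          omega
        · have e1 := (decomp (p := p) (by omega) (by omega) e.1).2
          have e2 := h.slot_bin h3 h4.le hv.2.1 hv.2.2 (by omega) (by omega)
          have e3 := off_step (p := p) e.2 e2.symm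
          unfold slot at e1
          rw [e2] at e1
          omega
    | _ => exact hE.elim

theorem no_cross {x y z w : Vx} (hxy : p.Adj x y) (hzw : p.Adj z w) (h1 : p.lt f x z)
    (h2 : p.lt f z y) (h3 : p.lt f y w) : p.pgN x ≠ p.pgN z := by
  have e1 : p.E x y := h.E_of_adj hxy (by unfold Par.lt at *; omega)
  have e2 : p.E z w := h.E_of_adj hzw (by unfold Par.lt at *; omega)
  by_cases hz : ∀ j, z ≠ .hub j
  · by_cases hx : ∀ j, x ≠ .hub j
    · exact (h.under e1 hx hzw.valid.1 h1 h2).2.symm
    · push Not at hx
      obtain ⟨j, rfl⟩ := hx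
      intro e
      have := (h.under e2 hz hxy.valid.2 h2 h3).1
      rw [← e] at this
      exact e1.2.2 this
  · push Not at hz
    obtain ⟨j, rfl⟩ := hz
    unfold Par.lt at h1
    cases x <;> simp only [k1, k2, pgN] at h1 ⊢ <;> omega

end IsPack

theorem pgN_lt {x : Vx} (hx : p.valid x) : p.pgN x < 5 := by
  cases x with
  | hub j => exact hx
  | pv q => simp only [pgN]; split_ifs <;> omega
  | rt c => simp [pgN]
  | iv c j t => simp [pgN]

end Par

end Pool.Agent.H236Z.Book
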