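import Mathlib
import Pool.Agent.NPC.Defs

/-! Book thickness and treewidth of finite simple graphs. -/

namespace Pool.Agent.H236Z.Book

/-- `G` has a `k`-page book embedding: a linear order on the vertices and an assignment of the
edges to `k` pages such that no page contains edges `vw` and `xy` with `v < x < w < y`. -/
def HasBookEmbedding {V : Type} (G : SimpleGraph V) (k : ℕ) : Prop :=
  ∃ (lo : LinearOrder V) (page : G.edgeSet → Fin k),
    ∀ (v w x y : V) (h₁ : G.Adj v w) (h₂ : G.Adj x y), lo.lt v x → lo.lt x w → lo.lt w y →
      page ⟨s(v, w), h₁⟩ ≠ page ⟨s(x, y), h₂⟩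

/-- The book thickness (page number): the least number of pages of a book embedding. -/
noncomputable def bookThickness {V : Type} (G : SimpleGraph V) : ℕ :=
  sInf {k | HasBookEmbedding G k}

/-- `G` has a tree decomposition all of whose bags have at most `w + 1` vertices: a finite tree
`T` with a bag `B t` of vertices for each node `t`, such that every vertex lies in a bag, the ends
of every edge lie in a common bag, and the nodes whose bags contain a given vertex induce a
connected subgraph of `T`. -/
def HasTreeDecomp {V : Type} (G : SimpleGraph V) (w : ℕ) : Prop :=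
  ∃ (m : ℕ) (T : SimpleGraph (Fin m)) (B : Fin m → Finset V), T.IsTree ∧
    (∀ v, ∃ t, v ∈ B t) ∧ (∀ u v, G.Adj u v → ∃ t, u ∈ B t ∧ v ∈ B t) ∧
    (∀ v, (T.induce {t | v ∈ B t}).Connected) ∧ ∀ t, (B t).card ≤ w + 1

/-- The treewidth: the least width of a tree decomposition. -/
noncomputable def treewidth {V : Type} (G : SimpleGraph V) : ℕ := sInf {w | HasTreeDecomp G w}

open scoped Classical in
/-- The adjacency matrix of a graph, as a list of rows. -/
noncomputable def adjMat {n : ℕ} (G : SimpleGraph (Fin n)) : List (List Bool) :=
  List.ofFn fun i => List.ofFn fun j => decide (G.Adj i j)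

end Pool.Agent.H236Z.Book
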