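import Pool.Agent.H236Z.Book.Defs

namespace Pool.Agent.H236Z.Book

open SimpleGraph

/-! ### Book embeddings through positions -/

theorem book_of_pos {V X : Type} [LinearOrder X] (G : SimpleGraph V) {k : ℕ} (pos : V → X)
    (hinj : Function.Injective pos) (pg : V → V → Fin k)
    (h : ∀ a b c d, G.Adj a b → G.Adj c d → pos a < pos c → pos c < pos b → pos b < pos d →
      pg a b ≠ pg c d) : HasBookEmbedding G k := by
  classical
  let pS : Sym2 V → Fin k := Sym2.lift ⟨fun x y => if pos x ≤ pos y then pg x y else pg y x, by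
    intro x y
    dsimp only
    rcases lt_trichotomy (pos x) (pos y) with h1 | h1 | h1
    · rw [if_pos h1.le, if_neg (not_le.2 h1)]
    · rw [hinj h1]
    · rw [if_neg (not_le.2 h1), if_pos h1.le]⟩
  refine ⟨LinearOrder.lift' pos hinj, fun e => pS e.1, ?_⟩
  intro v w x y h1 h2 l1 l2 l3
  have m1 : pos v < pos x := l1
  have m2 : pos x < pos w := l2
  have m3 : pos w < pos y := l3
  simp only [pS, Sym2.lift_mk]
  rw [if_pos (m1.trans m2).le, if_pos (m2.trans m3).le]
  exact h v w x y h1 h2 m1 m2 m3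

theorem pos_of_book {V : Type} [Finite V] {G : SimpleGraph V} {k : ℕ} (hk : 0 < k)
    (h : HasBookEmbedding G k) : ∃ (pos : V → ℤ) (pg : V → V → Fin k), Function.Injective pos ∧
      (∀ a b, pg a b = pg b a) ∧
      ∀ a b c d, G.Adj a b → G.Adj c d → pos a < pos c → pos c < pos b → pos b < pos d →
        pg a b ≠ pg c d := by
  classical
  obtain ⟨lo, page, hp⟩ := h
  let := lo
  have := Fintype.ofFinite V
  let e := (monoEquivOfFin V rfl).symm
  refine ⟨fun v => ((e v : ℕ) : ℤ), fun a b => if hab : G.Adj a b then page ⟨s(a, b), hab⟩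
    else ⟨0, hk⟩, ?_, ?_, ?_⟩
  · intro a b hab
    dsimp only at hab
    have : (e a : ℕ) = e b := by exact_mod_cast hab
    exact e.injective (Fin.ext this)
  · intro a b
    dsimp only
    by_cases hab : G.Adj a b
    · rw [dif_pos hab, dif_pos hab.symm]
      congr 2
      exact Sym2.eq_swap
    · rw [dif_neg hab, dif_neg (fun h => hab h.symm)]
  · intro a b c d h1 h2 l1 l2 l3
    dsimp only at l1 l2 l3 ⊢
    rw [dif_pos h1, dif_pos h2]
    have key : ∀ x y : V, ((e x : ℕ) : ℤ) < ((e y : ℕ) : ℤ) → x < y := by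
      intro x y hxy
      have : (e x : ℕ) < e y := by exact_mod_cast hxy
      exact e.lt_iff_lt.1 this
    exact hp a b c d h1 h2 (key _ _ l1) (key _ _ l2) (key _ _ l3)

theorem HasBookEmbedding.mono {V : Type} {G : SimpleGraph V} {k l : ℕ} (hkl : k ≤ l)
    (h : HasBookEmbedding G k) : HasBookEmbedding G l := by
  obtain ⟨lo, page, hp⟩ := h
  exact ⟨lo, fun e => Fin.castLE hkl (page e), fun v w x y h1 h2 l1 l2 l3 hh =>
    hp v w x y h1 h2 l1 l2 l3 (Fin.castLE_injective hkl hh)⟩

theorem exists_book {n : ℕ} (G : SimpleGraph (Fin n)) : ∃ k, HasBookEmbedding G k := by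
  classical
  refine ⟨Fintype.card G.edgeSet, inferInstance, Fintype.equivFin _, ?_⟩
  intro v w x y h1 h2 l1 l2 l3 hh
  have h3 := (Fintype.equivFin _).injective hh
  have h4 : s(v, w) = s(x, y) := congrArg Subtype.val h3
  have m1 : v < x := l1
  have m2 : x < w := l2
  have m3 : w < y := l3
  rcases Sym2.eq_iff.1 h4 with ⟨a, _⟩ | ⟨a, _⟩
  · exact m1.ne a
  · exact ((m1.trans m2).trans m3).ne a

theorem bookThickness_le_iff {n : ℕ} (G : SimpleGraph (Fin n)) (k : ℕ) :
    bookThickness G ≤ k ↔ HasBookEmbedding G k := by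
  constructor
  · intro h
    exact HasBookEmbedding.mono h (Nat.sInf_mem (exists_book G))
  · intro h
    exact Nat.sInf_le h

/-! ### Path decompositions -/

theorem pathGraph_isTree (n : ℕ) : (pathGraph (n + 1)).IsTree := by
  refine ⟨pathGraph_connected n, ?_⟩
  rw [isAcyclic_iff_forall_adj_isBridge]
  have key : ∀ v w : Fin (n + 1), v.val + 1 = w.val → (pathGraph (n + 1)).IsBridge s(v, w) := by
    intro v w hvw
    rw [isBridge_iff]
    intro hr
    have : ∀ x, ((pathGraph (n + 1)).deleteEdges {s(v, w)}).Reachable v x → x.val ≤ v.val := by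
      intro x hx
      rw [reachable_iff_reflTransGen] at hx
      induction hx with
      | refl => exact le_rfl
      | @tail b c _ hbc ih =>
        rw [deleteEdges_adj, pathGraph_adj] at hbc
        obtain ⟨h1, h2⟩ := hbc
        rcases h1 with h1 | h1
        · by_contra hc
          apply h2
          have e1 : b = v := Fin.ext (by omega)
          have e2 : c = w := Fin.ext (by omega)
          simp [e1, e2]
        · omega
    have := this w hr
    omega
  intro v w hvw
  rw [pathGraph_adj] at hvw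
  rcases hvw with h | h
  · exact key v w h
  · rw [Sym2.eq_swap]; exact key w v h

theorem interval_connected (n lo hi : ℕ) (h1 : lo ≤ hi) (h2 : hi ≤ n) :
    ((pathGraph (n + 1)).induce {t | lo ≤ t.val ∧ t.val ≤ hi}).Connected := by
  have hlo : lo < n + 1 := by omega
  let a : {t : Fin (n + 1) | lo ≤ t.val ∧ t.val ≤ hi} := ⟨⟨lo, hlo⟩, le_rfl, h1⟩
  have key : ∀ d (x : {t : Fin (n + 1) | lo ≤ t.val ∧ t.val ≤ hi}), x.1.val = lo + d →
      ((pathGraph (n + 1)).induce {t | lo ≤ t.val ∧ t.val ≤ hi}).Reachable a x := by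
    intro d
    induction d with
    | zero =>
      intro x hx
      have : x = a := Subtype.ext (Fin.ext hx)
      rw [this]
    | succ d ih =>
      intro x hx
      have hx2 := x.2.2
      let y : {t : Fin (n + 1) | lo ≤ t.val ∧ t.val ≤ hi} :=
        ⟨⟨lo + d, by omega⟩, by simp, by simp; omega⟩
      refine (ih y rfl).trans (Adj.reachable ?_)
      change (pathGraph (n + 1)).Adj y.1 x.1
      rw [pathGraph_adj]
      left
      simp [y]; omega
  have : Nonempty {t : Fin (n + 1) | lo ≤ t.val ∧ t.val ≤ hi} := ⟨a⟩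
  refine ⟨fun x y => ?_⟩
  exact (key (x.1.val - lo) x (by have := x.2.1; omega)).symm.trans
    (key (y.1.val - lo) y (by have := y.2.1; omega))

theorem treewidth_le_of_intervals {V : Type} [Fintype V] (G : SimpleGraph V) (w M : ℕ)
    (lo hi : V → ℕ) (h1 : ∀ v, lo v ≤ hi v) (h2 : ∀ v, hi v ≤ M)
    (h3 : ∀ u v, G.Adj u v → lo u ≤ hi v)
    (h4 : ∀ t, (Finset.univ.filter fun v => lo v ≤ t ∧ t ≤ hi v).card ≤ w + 1) :
    treewidth G ≤ w := by
  apply Nat.sInf_le
  refine ⟨M + 1, pathGraph (M + 1), fun t => Finset.univ.filter fun v => lo v ≤ t.val ∧ t.val ≤ hi v,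
    pathGraph_isTree M, ?_, ?_, ?_, fun t => h4 t.val⟩
  · intro v
    exact ⟨⟨lo v, by have := h1 v; have := h2 v; omega⟩, by simp [h1 v]⟩
  · intro u v huv
    have a1 := h3 u v huv
    have a2 := h3 v u huv.symm
    have a3 := h1 u
    have a4 := h1 v
    have a5 := h2 u
    refine ⟨⟨max (lo u) (lo v), by omega⟩, ?_, ?_⟩ <;> simp <;> omega
  · intro v
    have := interval_connected M (lo v) (hi v) (h1 v) (h2 v)
    have e : {t : Fin (M + 1) | v ∈ (fun t : Fin (M + 1) =>
        Finset.univ.filter fun v => lo v ≤ t.val ∧ t.val ≤ hi v) t} =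
        {t : Fin (M + 1) | lo v ≤ t.val ∧ t.val ≤ hi v} := by
      ext t; simp
    rw [e]; exact this

end Pool.Agent.H236Z.Book
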