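import Pool.Agent.H236Z.Book.Gen

namespace Pool.Agent.H236Z.Book

open Finset

/-- Vertices: hubs, path vertices, roots and item vertices. -/
inductive Vx : Type
  | hub (j : ℕ) | pv (q : ℕ) | rt (c : ℕ) | iv (c j t : ℕ)
  deriving DecidableEq

/-- A bin packing instance: `m` items of sizes `s j`, `K` bins of capacities `cap b`. -/
structure Par where
  m : ℕ
  K : ℕ
  s : ℕ → ℕ
  cap : ℕ → ℕ

namespace Par

variable (p : Par)

/-- All items can be packed. -/
def Pack : Prop := ∃ f : ℕ → ℕ, (∀ j < p.m, f j < p.K) ∧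
  ∀ b < p.K, ∑ j ∈ (range p.m).filter (fun j => f j = b), p.s j ≤ p.cap b

def a (b : ℕ) : ℕ := 1 + ∑ b' ∈ range b, (6 * p.cap b' + 2)

def P : ℕ := p.a p.K + 1

def wall (i : ℕ) : Prop := ∃ b ≤ p.K, p.a b = i

def valid : Vx → Prop
  | .hub j => j < 5
  | .pv q => q ≤ 61 * p.P
  | .rt c => c < 61
  | .iv c j t => c < 61 ∧ j < p.m ∧ t ≤ 6 * p.s j

/-- The pages that are free at a vertex. -/
def fr : Vx → ℕ → Prop
  | .hub _, _ => True
  | .pv q, j => q % p.P ≠ 0 ∧ (j = 1 ∨ (j = 0 ∧ ¬ p.wall (q % p.P)))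
  | .rt _, j => j = 2
  | .iv _ _ t, j => j = 1 ∨ j = 3 + t % 2

/-- Directed edges. -/
def E : Vx → Vx → Prop
  | .hub j, v => j < 5 ∧ p.valid v ∧ ¬ p.fr v j
  | .pv q, .pv q' => q' = q + 1 ∧ q < 61 * p.P
  | .rt c, .pv q => c < 61 ∧ c * p.P < q ∧ q < c * p.P + p.P
  | .rt c, .iv c' j t => c' = c ∧ c < 61 ∧ j < p.m ∧ t ≤ 6 * p.s j
  | .iv c j t, .iv c' j' t' => c' = c ∧ j' = j ∧ t' = t + 1 ∧ c < 61 ∧ j < p.m ∧ t < 6 * p.s j
  | _, _ => False

def Adj (x y : Vx) : Prop := p.E x y ∨ p.E y x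

/-- Interior vertices of the copy `c`. -/
def In (c : ℕ) : Vx → Prop
  | .hub _ => False
  | .pv q => c * p.P < q ∧ q < c * p.P + p.P
  | .rt c' => c' = c
  | .iv c' j t => c' = c ∧ j < p.m ∧ t ≤ 6 * p.s j

/-- Vertices of the copy `c`, with its two ends. -/
def Cl (c : ℕ) (x : Vx) : Prop := p.In c x ∨ x = .pv (c * p.P) ∨ x = .pv (c * p.P + p.P)

variable {p}

theorem Adj.symm {x y : Vx} (h : p.Adj x y) : p.Adj y x := Or.symm h

theorem a_succ (b : ℕ) : p.a (b + 1) = p.a b + 6 * p.cap b + 2 := by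
  unfold a; rw [sum_range_succ]; ring

theorem a_zero : p.a 0 = 1 := by simp [a]

theorem a_strictMono : StrictMono p.a := strictMono_nat_of_lt_succ fun b => by
  rw [a_succ]; omega

theorem a_pos (b : ℕ) : 1 ≤ p.a b := by unfold a; omega

theorem a_odd (b : ℕ) : p.a b % 2 = 1 := by
  induction b with
  | zero => rw [a_zero]
  | succ b ih => rw [a_succ]; omega

theorem P_ge : 2 ≤ p.P := by unfold P; have := a_pos (p := p) p.K; omega

theorem a_lt_P {b : ℕ} (hb : b ≤ p.K) : p.a b < p.P := by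
  unfold P; have := (a_strictMono (p := p)).monotone hb; omega

theorem mul_P_le {c : ℕ} (hc : c < 61) : c * p.P + p.P ≤ 61 * p.P := by
  have : (c + 1) * p.P ≤ 61 * p.P := Nat.mul_le_mul_right _ hc
  rwa [Nat.succ_mul] at this

theorem mod_P {c i : ℕ} (hi : i < p.P) : (c * p.P + i) % p.P = i := by
  rw [Nat.mul_comm, Nat.mul_add_mod, Nat.mod_eq_of_lt hi]

theorem In.valid {c : ℕ} (hc : c < 61) {x : Vx} (h : p.In c x) : p.valid x := by
  have := mul_P_le (p := p) hc
  cases x with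
  | hub j => exact h.elim
  | pv q => exact (show q ≤ 61 * p.P by have := h.2; omega)
  | rt c' => exact (show c' < 61 by have : c' = c := h; omega)
  | iv c' j t => exact ⟨by have := h.1; omega, h.2⟩

theorem Cl.valid {c : ℕ} (hc : c < 61) {x : Vx} (h : p.Cl c x) : p.valid x := by
  have := mul_P_le (p := p) hc
  rcases h with h | rfl | rfl
  · exact h.valid hc
  · exact (show c * p.P ≤ 61 * p.P by omega)
  · exact this

theorem E.valid {x y : Vx} (h : p.E x y) : p.valid x ∧ p.valid y := by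
  cases x with
  | hub j => exact ⟨h.1, h.2.1⟩
  | pv q =>
    cases y with
    | pv q' => exact ⟨h.2.le, by have := h.1; have := h.2; change q' ≤ _; omega⟩
    | _ => exact h.elim
  | rt c =>
    cases y with
    | pv q => exact ⟨h.1, by have := mul_P_le (p := p) h.1; have := h.2.2; change q ≤ _; omega⟩
    | iv c' j t => exact ⟨h.2.1, h.1 ▸ h.2.1, h.2.2⟩
    | _ => exact h.elim
  | iv c j t =>
    cases y with
    | iv c' j' t' =>
      obtain ⟨rfl, rfl, rfl, h1, h2, h3⟩ := h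
      exact ⟨⟨h1, h2, h3.le⟩, h1, h2, h3⟩
    | _ => exact h.elim

theorem Adj.valid {x y : Vx} (h : p.Adj x y) : p.valid x ∧ p.valid y :=
  h.elim E.valid fun h => h.valid.symm

theorem E.ne {x y : Vx} (h : p.E x y) : x ≠ y := by
  rintro rfl
  cases x with
  | hub j => exact h.2.2 trivial
  | pv q => have := h.1; omega
  | rt c => exact h.elim
  | iv c j t => have := h.2.2.1; omega

theorem Adj.ne {x y : Vx} (h : p.Adj x y) : x ≠ y := h.elim E.ne fun h => h.ne.symm

theorem cl_w {c i : ℕ} (hi : i ≤ p.P) : p.Cl c (.pv (c * p.P + i)) := by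
  rcases Nat.eq_zero_or_pos i with rfl | h0
  · exact Or.inr (Or.inl rfl)
  · rcases hi.eq_or_lt with rfl | h1
    · exact Or.inr (Or.inr rfl)
    · exact Or.inl ⟨by omega, by omega⟩

theorem in_w {c i : ℕ} (h0 : 0 < i) (hi : i < p.P) : p.In c (.pv (c * p.P + i)) :=
  ⟨by omega, by omega⟩

theorem adj_w {c i : ℕ} (hc : c < 61) (hi : i < p.P) :
    p.Adj (.pv (c * p.P + i)) (.pv (c * p.P + (i + 1))) :=
  Or.inl ⟨rfl, by have := mul_P_le (p := p) hc; omega⟩

theorem adj_root {c : ℕ} (hc : c < 61) {v : Vx} (hv : p.In c v) (hne : v ≠ .rt c) :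
    p.Adj (.rt c) v := by
  cases v with
  | hub j => exact hv.elim
  | pv q => exact Or.inl ⟨hc, hv⟩
  | rt c' => exact (hne (congrArg _ hv)).elim
  | iv c' j t => exact Or.inl ⟨hv.1, hc, hv.2⟩

theorem adj_item {c j t : ℕ} (hc : c < 61) (hj : j < p.m) (ht : t < 6 * p.s j) :
    p.Adj (.iv c j t) (.iv c j (t + 1)) := Or.inl ⟨rfl, rfl, rfl, hc, hj, ht⟩

theorem fr_w {c i l : ℕ} (hi : i < p.P) (h : p.fr (.pv (c * p.P + i)) l) :
    l = 1 ∨ (l = 0 ∧ ¬ p.wall i) := by
  have := h.2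
  rwa [mod_P hi] at this

/-- The situation inside a well placed copy. -/
structure Loc (p : Par) (c : ℕ) (pos : Vx → ℤ) (lab : Vx → Vx → ℕ) : Prop where
  hc : c < 61
  inj : ∀ x y, p.valid x → p.valid y → pos x = pos y → x = y
  symm : ∀ x y, lab x y = lab y x
  nc : ∀ x y z w, p.Adj x y → p.Adj z w → pos x < pos z → pos z < pos y → pos y < pos w →
    lab x y ≠ lab z w
  inside : ∀ v, p.In c v → pos (.pv (c * p.P)) < pos v ∧ pos v < pos (.pv (c * p.P + p.P))
  ov : ∀ x y v, p.Adj x y → p.Cl c x → p.Cl c y → p.In c v → pos x < pos v → pos v < pos y →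
    p.fr v (lab x y)

end Par

end Pool.Agent.H236Z.Book
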