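import Pool.Agent.H236Z.Book.Red

namespace Pool.Agent.H236Z.Book

open Finset Pool.Agent.NPC Pool.Agent.NPC.H634R2 Pool.Agent.H820R2.SC

/-- The adjacency bits of the clique instance of a formula. -/
def xb (φ : List Cl3) : List Bool :=
  (List.range (3 * φ.length * (3 * φ.length))).map fun i =>
    decide ((i / (3 * φ.length), i % (3 * φ.length)) ∈ gE φ)

theorem length_xb (φ : List Cl3) : (xb φ).length = 3 * φ.length * (3 * φ.length) := by
  simp [xb]

theorem adB_xb (φ : List Cl3) {u v : ℕ} (hu : u < 3 * φ.length) (hv : v < 3 * φ.length) :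
    adB (3 * φ.length) (xb φ) u v = true ↔ u ≠ v ∧ ((u, v) ∈ gE φ ∨ (v, u) ∈ gE φ) := by
  have key : ∀ a b, a < 3 * φ.length → b < 3 * φ.length →
      (xb φ).getD (a * (3 * φ.length) + b) false = decide ((a, b) ∈ gE φ) := by
    intro a b ha hb
    have h1 : a * (3 * φ.length) + b < 3 * φ.length * (3 * φ.length) := by
      have : (a + 1) * (3 * φ.length) ≤ 3 * φ.length * (3 * φ.length) :=
        Nat.mul_le_mul_right _ ha
      rw [Nat.succ_mul] at this
      omega
    rw [List.getD_eq_getElem _ _ (by rw [length_xb]; exact h1)]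
    simp only [xb, List.getElem_map, List.getElem_range]
    rw [Nat.mul_comm a, Nat.mul_add_div (by omega), Nat.div_eq_of_lt hb, Nat.mul_add_mod,
      Nat.mod_eq_of_lt hb, add_zero]
  unfold adB
  rw [key _ _ (by omega) (by omega)]
  simp only [Bool.and_eq_true, decide_eq_true_eq]
  refine and_congr_right fun _ => ?_
  rcases le_total u v with h | h
  · rw [min_eq_left h, max_eq_right h]
    exact ⟨Or.inl, fun h1 => h1.elim id fun h2 => by have := gE_lt h2; omega⟩
  · rw [min_eq_right h, max_eq_left h]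
    exact ⟨Or.inr, fun h1 => h1.elim (fun h2 => by have := gE_lt h2; omega) id⟩

theorem clq_iff_sat (φ : List Cl3) :
    Clq (3 * φ.length) φ.length (adB (3 * φ.length) (xb φ)) ↔ SAT3 φ := by
  rw [← hasClique_g]
  constructor
  · rintro ⟨w, h1, h2⟩
    have h3 : ∀ a b, a < b → b < φ.length → w a ≠ w b ∧ ((w a, w b) ∈ gE φ ∨ (w b, w a) ∈ gE φ) :=
      fun a b hab hb => (adB_xb φ (h1 a (by omega)) (h1 b hb)).1 (h2 a b hab hb)
    refine ⟨(range φ.length).image w, ?_, ?_, ?_⟩
    · intro v hv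
      obtain ⟨a, ha, rfl⟩ := mem_image.1 hv
      exact mem_gV.2 (h1 a (mem_range.1 ha))
    · rw [card_image_of_injOn, card_range]
      intro a ha b hb e
      have ha' : a < φ.length := by simpa using ha
      have hb' : b < φ.length := by simpa using hb
      rcases lt_trichotomy a b with h | h | h
      · exact ((h3 a b h hb').1 e).elim
      · exact h
      · exact ((h3 b a h ha').1 e.symm).elim
    · intro u hu v hv hne
      obtain ⟨a, ha, rfl⟩ := mem_image.1 hu
      obtain ⟨b, hb, rfl⟩ := mem_image.1 hv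
      rcases lt_trichotomy a b with h | h | h
      · exact (h3 a b h (mem_range.1 hb)).2
      · exact (hne (by rw [h])).elim
      · exact (h3 b a h (mem_range.1 ha)).2.symm
  · rintro ⟨K, h1, h2, h3⟩
    let e := K.orderEmbOfFin h2
    have he : ∀ i, e i ∈ K := fun i => orderEmbOfFin_mem K h2 i
    refine ⟨fun a => if h : a < φ.length then e ⟨a, h⟩ else 0, fun a ha => ?_,
      fun a b hab hb => ?_⟩
    · simp only [dif_pos ha]
      exact mem_gV.1 (h1 _ (he _))
    · have ha : a < φ.length := by omega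
      simp only [dif_pos ha, dif_pos hb]
      have hne : e ⟨a, ha⟩ ≠ e ⟨b, hb⟩ := (e.strictMono (show (⟨a, ha⟩ : Fin _) < ⟨b, hb⟩ from hab)).ne
      exact (adB_xb φ (mem_gV.1 (h1 _ (he _))) (mem_gV.1 (h1 _ (he _)))).2
        ⟨hne, h3 _ (he _) _ (he _) hne⟩

theorem poly_xb : Poly xb := by
  have u : UPoly fun φ : List Cl3 => 3 * φ.length := (UPoly.const 3).mul (UPoly.length Poly.id)
  have r := (u.mul u).range
  have hE := gE_poly
  unfold xb
  refine NPC.Poly.map r ?_
  have h1 : Poly fun p : List Cl3 × ℕ => gE p.1 := hE.comp (Poly.fst Poly.id)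
  fun_prop

theorem sum_le_tOf {s tg : List ℕ} (h : Adm s tg) : s.sum ≤ tOf s tg := by
  unfold tOf
  have h1 : 1 ≤ tg.length := List.length_pos_of_ne_nil h.ne
  have h2 : 1 ≤ 8 * (2 * tg.length) * (s.length + 1) := Nat.mul_pos (by omega) (by omega)
  have h3 := Nat.mul_le_mul_right (s.sum + 1) h2
  omega

theorem hard : HardPr (fun M : List (List Bool) => ∃ (n : ℕ) (G : SimpleGraph (Fin n)),
      adjMat G = M ∧ treewidth G ≤ 9)
    (fun M => ∀ (n : ℕ) (G : SimpleGraph (Fin n)), adjMat G = M → bookThickness G ≤ 5) := by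
  obtain ⟨F, hF, hF'⟩ := poly_inst
  obtain ⟨N, hN, hN'⟩ := tOf_inst_le
  let inp : List Cl3 → Inp := fun φ => (3 * φ.length, xb φ, List.replicate φ.length ())
  have hinp : Poly inp :=
    Poly.pair (by fun_prop) (Poly.pair poly_xb (UPoly.length Poly.id))
  have e : ∀ φ, F (inp φ) = inst (3 * φ.length) φ.length (xb φ) := fun φ =>
    hF' _ _ _ (length_xb φ)
  have hA : ∀ φ, Adm (F (inp φ)).1 (F (inp φ)).2 := fun φ => by rw [e]; exact adm_inst _ _ _
  have hpoly : Poly fun φ => mtx (F (inp φ)).1 (F (inp φ)).2 :=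
    p_mtx (Poly.fst (hF.comp hinp)) (Poly.snd (hF.comp hinp)) (hN.comp hinp)
      (fun φ => (hA φ).le) fun φ => (sum_le_tOf (hA φ)).trans (by
        rw [e]; exact hN' _ _ _ (length_xb φ))
  refine hardI_SAT3.toHardPr.trans hpoly (fun φ _ => ?_) fun φ _ => ?_
  · obtain ⟨G, h1, h2⟩ := model (F (inp φ)).1 (F (inp φ)).2
    exact ⟨_, G, h1, Par.tw_le h2⟩
  · obtain ⟨G, h1, h2⟩ := model (F (inp φ)).1 (F (inp φ)).2
    have hs : ∀ j < (par (F (inp φ)).1 (F (inp φ)).2).m,
        1 ≤ (par (F (inp φ)).1 (F (inp φ)).2).s j := by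
      intro j hj
      change 1 ≤ (F (inp φ)).1.getD j 0
      rw [List.getD_eq_getElem _ _ hj]
      exact (hA φ).pos _ (List.getElem_mem hj)
    have key : SAT3 φ ↔ bookThickness G ≤ 5 := by
      rw [bookThickness_le_iff, Par.book_iff h2 hs, pack_iff (hA φ).le, e, packL_inst, clq_iff,
        clq_iff_sat]
    rw [key]
    constructor
    · intro h n G' h3
      obtain ⟨rfl, h4⟩ := matOf_injective (show matOf G = matOf G' from h1.trans h3.symm)
      exact h4 ▸ h
    · intro h
      exact h _ G h1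

theorem main : ∀ L : Set (List Bool), InNP L → ∃ f : List Bool → List Bool, PolyTime f ∧
    ∀ x, ∃ (n : ℕ) (G : SimpleGraph (Fin n)), f x = bits (adjMat G) ∧ treewidth G ≤ 9 ∧
      (x ∈ L ↔ bookThickness G ≤ 5) := by
  intro L hL
  obtain ⟨f, h1, h2, h3⟩ := hard L hL
  refine ⟨fun x => bits (f x), PC.toPolyTime h1, fun x => ?_⟩
  obtain ⟨n, G, h4, h5⟩ := h2 x
  refine ⟨n, G, by rw [h4], h5, (h3 x).trans ⟨fun h => h n G h4, fun h n' G' h6 => ?_⟩⟩
  obtain ⟨rfl, h7⟩ := matOf_injective (show matOf G = matOf G' from h4.trans h6.symm)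
  exact h7 ▸ h

end Pool.Agent.H236Z.Book
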