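import Pool.Agent.H236Z.Book.SoundA
import Pool.Agent.H236Z.Book.Compl

namespace Pool.Agent.H236Z.Book

open Finset

namespace Par

/-- `G` is a copy of the graph of `p`. -/
structure IsModel (p : Par) {V : Type} (G : SimpleGraph V) (φ : V → Vx) : Prop where
  inj : Function.Injective φ
  val : ∀ v, p.valid (φ v)
  surj : ∀ x, p.valid x → ∃ v, φ v = x
  adj : ∀ u v, G.Adj u v ↔ p.Adj (φ u) (φ v)

variable {p : Par}

theorem book_iff {V : Type} [Finite V] {G : SimpleGraph V} {φ : V → Vx} (hM : p.IsModel G φ)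
    (hs : ∀ j < p.m, 1 ≤ p.s j) : HasBookEmbedding G 5 ↔ p.Pack := by
  classical
  constructor
  · intro h
    obtain ⟨pos, pg, h1, h2, h3⟩ := pos_of_book (by norm_num) h
    obtain ⟨v0, -⟩ := hM.surj (.hub 0) (show 0 < 5 by norm_num)
    have : Nonempty V := ⟨v0⟩
    let ψ : Vx → V := Function.invFun φ
    have hψ : ∀ x, p.valid x → φ (ψ x) = x := fun x hx => Function.invFun_eq (hM.surj x hx)
    have hadj : ∀ x y, p.Adj x y → G.Adj (ψ x) (ψ y) := fun x y hxy => by
      rw [hM.adj, hψ x hxy.valid.1, hψ y hxy.valid.2]; exact hxy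
    have E : p.Emb (fun x => pos (ψ x)) (fun x y => pg (ψ x) (ψ y)) :=
      ⟨fun x y hx hy e => by rw [← hψ x hx, ← hψ y hy, h1 e], fun x y => h2 _ _,
        fun x y z w a b => h3 _ _ _ _ (hadj _ _ a) (hadj _ _ b)⟩
    exact E.pack hs
  · rintro ⟨f, h1, h2⟩
    have hf : p.IsPack f := ⟨h1, h2⟩
    refine book_of_pos G (fun v => (toLex (p.k1 f (φ v), k2 (φ v)) : ℕ ×ₗ ℕ)) ?_
      (fun u _ => ⟨p.pgN (φ u), pgN_lt (hM.val u)⟩) ?_
    · intro u v e
      have e1 : p.k1 f (φ u) = p.k1 f (φ v) := congrArg (fun x => (ofLex x).1) e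
      have e2 : k2 (φ u) = k2 (φ v) := congrArg (fun x => (ofLex x).2) e
      exact hM.inj (hf.key_inj (hM.val u) (hM.val v) e1 e2)
    · intro a b c d hab hcd l1 l2 l3 e
      rw [Prod.Lex.toLex_lt_toLex] at l1 l2 l3
      exact hf.no_cross ((hM.adj _ _).1 hab) ((hM.adj _ _).1 hcd) l1 l2 l3 (congrArg Fin.val e)

variable (p)

def Mx : ℕ := 6 * ∑ j ∈ range p.m, p.s j + 2
def U : ℕ := p.m * p.Mx
def D : ℕ := p.U + p.P
def Tm (q : ℕ) : ℕ := (q / p.P) * p.D + if q % p.P = 0 then 0 else p.U + q % p.P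

def lo : Vx → ℕ
  | .hub _ => 0
  | .pv q => p.Tm q
  | .rt c => c * p.D
  | .iv c j t => c * p.D + (j * p.Mx + t)

def hi : Vx → ℕ
  | .hub _ => 62 * p.D
  | .pv q => p.Tm (q + 1)
  | .rt c => c * p.D + (p.D - 1)
  | .iv c j t => c * p.D + (j * p.Mx + t) + 1

variable {p}

theorem Tm_eq {c i : ℕ} (hi : i < p.P) :
    p.Tm (c * p.P + i) = c * p.D + if i = 0 then 0 else p.U + i := by
  have hP := P_ge (p := p)
  unfold Tm
  rw [mod_P hi, Nat.mul_comm c, Nat.mul_add_div (by omega), Nat.div_eq_of_lt hi, add_zero]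

theorem Tm_mono : StrictMono p.Tm := by
  have hP := P_ge (p := p)
  refine strictMono_nat_of_lt_succ fun q => ?_
  obtain ⟨c, i, hi, rfl⟩ : ∃ c i, i < p.P ∧ q = c * p.P + i :=
    ⟨q / p.P, q % p.P, Nat.mod_lt _ (by omega), (Nat.div_add_mod' q p.P).symm⟩
  rw [Tm_eq hi]
  by_cases h : i + 1 < p.P
  · rw [Nat.add_assoc (c * p.P) i 1, Tm_eq h, if_neg (Nat.succ_ne_zero i)]
    split_ifs <;> omega
  · have e : c * p.P + i + 1 = (c + 1) * p.P + 0 := by rw [Nat.succ_mul]; omega
    rw [e, Tm_eq (by omega), Nat.succ_mul]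
    unfold D
    split_ifs <;> omega

theorem item_time {j t : ℕ} (hj : j < p.m) (ht : t ≤ 6 * p.s j) :
    t + 2 ≤ p.Mx ∧ j * p.Mx + t + 2 ≤ p.U := by
  have h1 : p.s j ≤ ∑ j ∈ range p.m, p.s j :=
    single_le_sum (f := p.s) (fun _ _ => Nat.zero_le _) (mem_range.2 hj)
  have h2 : t + 2 ≤ p.Mx := by unfold Mx; omega
  have h3 : (j + 1) * p.Mx ≤ p.m * p.Mx := Nat.mul_le_mul_right _ hj
  rw [Nat.succ_mul] at h3
  unfold U
  omega

theorem decomp' {N c c' i i' : ℕ} (hi : i < N) (hi' : i' < N)
    (e : c * N + i = c' * N + i') : c = c' ∧ i = i' := by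
  have h1 : (c * N + i) % N = i := by rw [Nat.mul_comm, Nat.mul_add_mod, Nat.mod_eq_of_lt hi]
  have h2 : (c' * N + i') % N = i' := by rw [Nat.mul_comm, Nat.mul_add_mod, Nat.mod_eq_of_lt hi']
  rw [e, h2] at h1
  subst h1
  exact ⟨Nat.eq_of_mul_eq_mul_right (by omega : 0 < N) (by omega), rfl⟩

theorem lo_le_hi (x : Vx) : p.lo x ≤ p.hi x := by
  cases x with
  | pv q => exact (Tm_mono (Nat.lt_succ_self q)).le
  | _ => simp only [lo, hi]; omega

theorem hi_le {x : Vx} (hx : p.valid x) : p.hi x ≤ 62 * p.D := by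
  have hP := P_ge (p := p)
  have hD : p.D = p.U + p.P := rfl
  cases x with
  | hub j => exact le_rfl
  | pv q =>
    have h1 : p.Tm (q + 1) ≤ p.Tm (61 * p.P + 1) := Tm_mono.monotone (Nat.succ_le_succ hx)
    rw [Tm_eq (by omega)] at h1
    simp only [hi]
    split_ifs at h1 <;> omega
  | rt c =>
    have : c * p.D ≤ 60 * p.D := Nat.mul_le_mul_right _ (Nat.lt_succ_iff.1 hx)
    simp only [hi]; omega
  | iv c j t =>
    have : c * p.D ≤ 60 * p.D := Nat.mul_le_mul_right _ (Nat.lt_succ_iff.1 hx.1)
    have := item_time hx.2.1 hx.2.2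
    simp only [hi]; omega

theorem meet {x y : Vx} (h : p.E x y) : p.lo x ≤ p.hi y ∧ p.lo y ≤ p.hi x := by
  have hP := P_ge (p := p)
  have hD : p.D = p.U + p.P := rfl
  cases x with
  | hub j => exact ⟨Nat.zero_le _, (lo_le_hi y).trans (hi_le h.2.1)⟩
  | pv q =>
    cases y with
    | pv q' =>
      obtain ⟨rfl, -⟩ := h
      exact ⟨(Tm_mono.monotone (by omega)), le_rfl⟩
    | _ => exact h.elim
  | rt c =>
    cases y with
    | pv q =>
      obtain ⟨-, h1, h2⟩ := h
      obtain ⟨i, rfl⟩ : ∃ i, q = c * p.P + i := ⟨q - c * p.P, by omega⟩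
      have h3 := Tm_mono (p := p) (Nat.lt_succ_self (c * p.P + i))
      simp only [lo, hi]
      rw [Tm_eq (by omega), if_neg (by omega)] at h3 ⊢
      simp only [Nat.succ_eq_add_one] at h3
      omega
    | iv c' j t =>
      obtain ⟨rfl, -, h1, h2⟩ := h
      have := item_time h1 h2
      simp only [lo, hi]; omega
    | _ => exact h.elim
  | iv c j t =>
    cases y with
    | iv c' j' t' =>
      obtain ⟨rfl, rfl, rfl, -⟩ := h
      simp only [lo, hi]; omega
    | _ => exact h.elim

/-- The place of a vertex in the bag `T`. -/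
def place (p : Par) (T : ℕ) : Vx → ℕ
  | .hub j => j
  | .rt _ => 5
  | .pv q => if T = p.Tm (q + 1) then 6 else 7
  | .iv c j t => if T = c * p.D + (j * p.Mx + t) then 8 else 9

theorem place_inj {T : ℕ} {x y : Vx} (hx : p.valid x) (hy : p.valid y) (h1 : p.lo x ≤ T)
    (h2 : T ≤ p.hi x) (h3 : p.lo y ≤ T) (h4 : T ≤ p.hi y) (e : p.place T x = p.place T y) :
    x = y := by
  have hP := P_ge (p := p)
  have hD : p.D = p.U + p.P := rfl
  cases x with
  | hub j =>
    have : j < 5 := hx
    cases y <;> simp only [place] at e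
    · rw [e]
    · split_ifs at e <;> omega
    · omega
    · split_ifs at e <;> omega
  | rt c =>
    cases y with
    | hub j => have : j < 5 := hy; simp only [place] at e; omega
    | pv q => simp only [place] at e; split_ifs at e <;> omega
    | rt c' =>
      simp only [lo, hi] at h1 h2 h3 h4
      rw [(decomp' (N := p.D) (c := c) (c' := c') (i := T - c * p.D) (i' := T - c' * p.D)
        (by omega) (by omega) (by omega)).1]
    | iv c' j t => simp only [place] at e; split_ifs at e <;> omega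
  | pv q =>
    cases y with
    | hub j => have : j < 5 := hy; simp only [place] at e; split_ifs at e <;> omega
    | pv q' =>
      simp only [lo, hi, place] at h1 h2 h3 h4 e
      have m1 := Tm_mono (p := p) (Nat.lt_succ_self q)
      have m2 := Tm_mono (p := p) (Nat.lt_succ_self q')
      simp only [Nat.succ_eq_add_one] at m1 m2
      rcases lt_trichotomy q q' with a | a | a
      · have := (Tm_mono (p := p)).monotone (show q + 1 ≤ q' from a)
        split_ifs at e <;> omega
      · rw [a]
      · have := (Tm_mono (p := p)).monotone (show q' + 1 ≤ q from a)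
        split_ifs at e <;> omega
    | rt c' => simp only [place] at e; split_ifs at e <;> omega
    | iv c' j t => simp only [place] at e; split_ifs at e <;> omega
  | iv c j t =>
    cases y with
    | hub j => have : j < 5 := hy; simp only [place] at e; split_ifs at e <;> omega
    | pv q => simp only [place] at e; split_ifs at e <;> omega
    | rt c' => simp only [place] at e; split_ifs at e <;> omega
    | iv c' j' t' =>
      simp only [lo, hi, place] at h1 h2 h3 h4 e
      have b1 := item_time hx.2.1 hx.2.2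
      have b2 := item_time hy.2.1 hy.2.2
      have e1 : c * p.D + (j * p.Mx + t) = c' * p.D + (j' * p.Mx + t') := by
        split_ifs at e <;> omega
      obtain ⟨rfl, e2⟩ := decomp' (by omega) (by omega) e1
      obtain ⟨rfl, rfl⟩ := decomp' (by omega) (by omega) e2
      rfl

theorem place_lt {T : ℕ} {x : Vx} (hx : p.valid x) : p.place T x < 10 := by
  cases x with
  | hub j => have : j < 5 := hx; simp only [place]; omega
  | rt c => simp [place]
  | pv q => simp only [place]; split_ifs <;> omega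
  | iv c j t => simp only [place]; split_ifs <;> omega

theorem tw_le {V : Type} [Fintype V] {G : SimpleGraph V} {φ : V → Vx} (hM : p.IsModel G φ) :
    treewidth G ≤ 9 := by
  refine treewidth_le_of_intervals G 9 (62 * p.D) (fun v => p.lo (φ v)) (fun v => p.hi (φ v))
    (fun v => lo_le_hi _) (fun v => hi_le (hM.val v)) ?_ ?_
  · intro u v huv
    rcases (hM.adj u v).1 huv with h | h
    · exact (meet h).1
    · exact (meet h).2
  · intro T
    calc _ ≤ (range 10).card := by
          refine card_le_card_of_injOn (fun v => p.place T (φ v))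
            (fun v _ => mem_range.2 (place_lt (hM.val v))) fun u hu v hv e => ?_
          have a := (mem_filter.1 hu).2
          have b := (mem_filter.1 hv).2
          exact hM.inj (place_inj (hM.val u) (hM.val v) a.1 a.2 b.1 b.2 e)
      _ = _ := by simp

end Par

end Pool.Agent.H236Z.Book
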