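import Pool.Agent.H236Z.Book.Model
import Pool.Agent.H820R2.SC.Asm
import Pool.Agent.H634R2.Clique

namespace Pool.Agent.H236Z.Book

open Finset Pool.Agent.NPC

/-- The packing instance of a pair of lists. -/
def par (s tg : List ℕ) : Par where
  m := s.length
  K := tg.length + 1
  s j := s.getD j 0
  cap b := (tg ++ [s.sum - tg.sum]).getD b 0

theorem cap_sum {s tg : List ℕ} (h : tg.sum ≤ s.sum) :
    ∑ b ∈ range (tg.length + 1), (tg ++ [s.sum - tg.sum]).getD b 0 = s.sum := by
  have h2 := H820R2.SC.sum_getD (tg ++ [s.sum - tg.sum])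
  rw [List.length_append, List.length_singleton] at h2
  rw [h2]
  simp only [List.sum_append, List.sum_cons, List.sum_nil]
  omega

theorem pack_iff {s tg : List ℕ} (h : tg.sum ≤ s.sum) :
    (par s tg).Pack ↔ H820R2.SC.PackL s tg := by
  have hs := H820R2.SC.sum_getD s
  have ht := H820R2.SC.sum_getD tg
  constructor
  · rintro ⟨f, h1, h2⟩
    have tot : ∑ b ∈ range (tg.length + 1),
        ∑ j ∈ (range s.length).filter (fun j => f j = b), s.getD j 0 = s.sum := by
      rw [← hs]
      exact sum_fiberwise_of_maps_to (fun j hj => mem_range.2 (h1 j (mem_range.1 hj))) _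
    have eq := (sum_eq_sum_iff_of_le (s := range (tg.length + 1))
      (f := fun b => ∑ j ∈ (range s.length).filter (fun j => f j = b), s.getD j 0)
      (g := fun b => (tg ++ [s.sum - tg.sum]).getD b 0)
      (fun b hb => h2 b (mem_range.1 hb))).1 (tot.trans (cap_sum h).symm)
    refine ⟨f, fun i hi => ?_⟩
    have := eq i (mem_range.2 (by omega))
    rw [List.getD_append _ _ _ _ hi] at this
    exact this
  · rintro ⟨f, hf⟩
    have hlt : ∀ i < tg.length, ∑ j ∈ (range s.length).filter (fun j => min (f j) tg.length = i),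
        s.getD j 0 = tg.getD i 0 := by
      intro i hi
      rw [← hf i hi]
      refine sum_congr (filter_congr fun j _ => ?_) fun _ _ => rfl
      omega
    refine ⟨fun j => min (f j) tg.length, fun j _ => Nat.lt_succ_of_le (min_le_right _ _),
      fun b hb => ?_⟩
    change ∑ j ∈ (range s.length).filter (fun j => min (f j) tg.length = b), s.getD j 0 ≤
      (tg ++ [s.sum - tg.sum]).getD b 0
    rcases Nat.lt_or_ge b tg.length with h1 | h1
    · rw [hlt b h1, List.getD_append _ _ _ _ h1]
    · have hb' : b < tg.length + 1 := hb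
      obtain rfl : b = tg.length := by omega
      have tot : ∑ b ∈ range (tg.length + 1),
          ∑ j ∈ (range s.length).filter (fun j => min (f j) tg.length = b), s.getD j 0 = s.sum := by
        rw [← hs]
        exact sum_fiberwise_of_maps_to
          (fun j _ => mem_range.2 (Nat.lt_succ_of_le (min_le_right _ _))) _
      rw [sum_range_succ, sum_congr rfl (fun i hi => hlt i (mem_range.1 hi)), ht] at tot
      rw [List.getD_append_right _ _ _ _ le_rfl, Nat.sub_self]
      simp only [List.getD_cons_zero]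
      omega

abbrev Code : Type := ℕ × ℕ × ℕ × ℕ

def Vx.code : Vx → Code
  | .hub j => (0, j, 0, 0)
  | .pv q => (1, q, 0, 0)
  | .rt c => (2, c, 0, 0)
  | .iv c j t => (3, c, j, t)

def aL (s tg : List ℕ) (b : ℕ) : ℕ := 1 + (((List.range (tg.length + 1)).filter
  fun b' => decide (b' < b)).map fun b' => 6 * (tg ++ [s.sum - tg.sum]).getD b' 0 + 2).sum

def PL (s tg : List ℕ) : ℕ := aL s tg (tg.length + 1) + 1

def wallsL (s tg : List ℕ) : List ℕ := (List.range (tg.length + 2)).map (aL s tg)

theorem aL_eq (s tg : List ℕ) {b : ℕ} (hb : b ≤ tg.length + 1) : aL s tg b = (par s tg).a b := by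
  unfold aL Par.a
  have : (List.range (tg.length + 1)).filter (fun b' => decide (b' < b)) = List.range b := by
    obtain ⟨d, hd⟩ := Nat.exists_eq_add_of_le hb
    rw [hd, List.range_add, List.filter_append, List.filter_eq_self.2, List.filter_eq_nil_iff.2]
    · simp
    · intro a ha
      obtain ⟨x, -, rfl⟩ := List.mem_map.1 ha
      simp
    · intro a ha
      simpa using ha
  rw [this, ← List.sum_toFinset _ List.nodup_range, List.toFinset_range]
  rfl

theorem PL_eq (s tg : List ℕ) : PL s tg = (par s tg).P := by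
  unfold PL Par.P
  rw [aL_eq s tg le_rfl]; rfl

theorem mem_wallsL (s tg : List ℕ) (i : ℕ) : i ∈ wallsL s tg ↔ (par s tg).wall i := by
  unfold wallsL Par.wall
  simp only [List.mem_map, List.mem_range]
  constructor
  · rintro ⟨b, hb, rfl⟩
    exact ⟨b, Nat.lt_succ_iff.1 hb, (aL_eq s tg (Nat.lt_succ_iff.1 hb)).symm⟩
  · rintro ⟨b, hb, rfl⟩
    exact ⟨b, Nat.lt_succ_iff.2 hb, aL_eq s tg hb⟩

def frB (P : ℕ) (W : List ℕ) (y : Code) (j : ℕ) : Bool :=
  decide (y.1 = 0) ||
  (decide (y.1 = 1) && (!decide (y.2.1 % P = 0) &&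
    (decide (j = 1) || (decide (j = 0) && !decide (y.2.1 % P ∈ W))))) ||
  (decide (y.1 = 2) && decide (j = 2)) ||
  (decide (y.1 = 3) && (decide (j = 1) || decide (j = 3 + y.2.2.2 % 2)))

def EB (P : ℕ) (W : List ℕ) (x y : Code) : Bool :=
  (decide (x.1 = 0) && !frB P W y x.2.1) ||
  (decide (x.1 = 1) && (decide (y.1 = 1) && decide (y.2.1 = x.2.1 + 1))) ||
  (decide (x.1 = 2) && ((decide (y.1 = 1) && (decide (x.2.1 * P < y.2.1) &&
    decide (y.2.1 < x.2.1 * P + P))) || (decide (y.1 = 3) && decide (y.2.1 = x.2.1)))) ||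
  (decide (x.1 = 3) && (decide (y.1 = 3) && (decide (y.2.1 = x.2.1) &&
    (decide (y.2.2.1 = x.2.2.1) && decide (y.2.2.2 = x.2.2.2 + 1)))))

theorem frB_iff (s tg : List ℕ) (y : Vx) (j : ℕ) :
    frB (PL s tg) (wallsL s tg) y.code j = true ↔ (par s tg).fr y j := by
  cases y <;> simp [frB, Vx.code, Par.fr, PL_eq, mem_wallsL]

theorem EB_iff (s tg : List ℕ) {x y : Vx} (hx : (par s tg).valid x) (hy : (par s tg).valid y) :
    EB (PL s tg) (wallsL s tg) x.code y.code = true ↔ (par s tg).E x y := by
  cases x with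
  | hub j =>
    have h1 : j < 5 := hx
    have h2 := frB_iff s tg y j
    simp only [EB, Par.E, h1, hy, true_and, ← h2]
    simp [Vx.code]
  | pv q =>
    cases y with
    | pv q' =>
      have : q' ≤ 61 * (par s tg).P := hy
      simp [EB, Vx.code, Par.E]; omega
    | _ => simp [EB, Vx.code, Par.E]
  | rt c =>
    have h1 : c < 61 := hx
    cases y with
    | pv q => simp [EB, Vx.code, Par.E, PL_eq, h1]
    | iv c' j t => simp [EB, Vx.code, Par.E, h1, hy.2.1, hy.2.2]
    | _ => simp [EB, Vx.code, Par.E]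
  | iv c j t =>
    cases y with
    | iv c' j' t' =>
      simp only [EB, Vx.code, Par.E]
      simp
      rintro rfl rfl rfl
      exact hy
    | _ => simp [EB, Vx.code, Par.E]

def VL (s tg : List ℕ) : List Vx :=
  (List.range 5).map Vx.hub ++ ((List.range (61 * PL s tg + 1)).map Vx.pv ++
    ((List.range 61).map Vx.rt ++ (List.range 61).flatMap fun c =>
      (List.range s.length).flatMap fun j => (List.range (6 * s.getD j 0 + 1)).map (Vx.iv c j)))

def CL (s tg : List ℕ) : List Code :=
  ((List.range 5).map fun j => (0, j, 0, 0)) ++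
    (((List.range (61 * PL s tg + 1)).map fun q => (1, q, 0, 0)) ++
    (((List.range 61).map fun c => (2, c, 0, 0)) ++ (List.range 61).flatMap fun c =>
      (List.range s.length).flatMap fun j => (List.range (6 * s.getD j 0 + 1)).map
        fun t => (3, c, j, t)))

theorem CL_eq (s tg : List ℕ) : CL s tg = (VL s tg).map Vx.code := by
  simp only [CL, VL, List.map_append, List.map_map, List.map_flatMap]
  rfl

theorem mem_VL (s tg : List ℕ) (x : Vx) : x ∈ VL s tg ↔ (par s tg).valid x := by
  cases x with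
  | hub j => simp [VL, Par.valid]
  | pv q => simp [VL, Par.valid, PL_eq, Nat.lt_succ_iff]
  | rt c => simp [VL, Par.valid]
  | iv c j t =>
    simp only [VL, Par.valid, List.mem_append, List.mem_map, List.mem_range, reduceCtorEq,
      and_false, exists_false, false_or, List.mem_flatMap, Vx.iv.injEq, Nat.lt_succ_iff]
    constructor
    · rintro ⟨c', h1, j', h2, t', h3, rfl, rfl, rfl⟩
      exact ⟨h1, h2, h3⟩
    · rintro ⟨h1, h2, h3⟩
      exact ⟨c, h1, j, h2, t, h3, rfl, rfl, rfl⟩

theorem nodup_VL (s tg : List ℕ) : (VL s tg).Nodup := by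
  unfold VL
  have i1 : Function.Injective Vx.hub := fun a b h => by simpa using h
  have i2 : Function.Injective Vx.pv := fun a b h => by simpa using h
  have i3 : Function.Injective Vx.rt := fun a b h => by simpa using h
  have i4 : ∀ c j, Function.Injective (Vx.iv c j) := fun c j a b h => by simpa using h
  refine List.Nodup.append (List.nodup_range.map i1) (List.Nodup.append (List.nodup_range.map i2)
    (List.Nodup.append (List.nodup_range.map i3) ?_ ?_) ?_) ?_
  · rw [List.nodup_flatMap]
    refine ⟨fun c _ => ?_, List.nodup_range.imp ?_⟩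
    · rw [List.nodup_flatMap]
      refine ⟨fun j _ => List.nodup_range.map (i4 c j), List.nodup_range.imp ?_⟩
      intro j j' hne x h1 h2
      obtain ⟨t, -, rfl⟩ := List.mem_map.1 h1
      obtain ⟨t', -, e⟩ := List.mem_map.1 h2
      simp only [Vx.iv.injEq] at e
      exact hne e.2.1.symm
    · intro c c' hne x h1 h2
      obtain ⟨j, -, h3⟩ := List.mem_flatMap.1 h1
      obtain ⟨j', -, h4⟩ := List.mem_flatMap.1 h2
      obtain ⟨t, -, rfl⟩ := List.mem_map.1 h3
      obtain ⟨t', -, e⟩ := List.mem_map.1 h4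
      simp only [Vx.iv.injEq] at e
      exact hne e.1.symm
  · intro x h1 h2
    obtain ⟨t, -, rfl⟩ := List.mem_map.1 h1
    simp at h2
  · intro x h1 h2
    obtain ⟨t, -, rfl⟩ := List.mem_map.1 h1
    simp at h2
  · intro x h1 h2
    obtain ⟨t, -, rfl⟩ := List.mem_map.1 h1
    simp at h2

def mtx (s tg : List ℕ) : List (List Bool) :=
  (CL s tg).map fun x => (CL s tg).map fun y =>
    EB (PL s tg) (wallsL s tg) x y || EB (PL s tg) (wallsL s tg) y x

theorem map_eq_ofFn {α β : Type} (l : List α) (f : α → β) :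
    l.map f = List.ofFn fun i : Fin l.length => f (l.get i) := by
  conv_lhs => rw [← List.ofFn_get l]
  rw [List.map_ofFn]; rfl

theorem model (s tg : List ℕ) : ∃ G : SimpleGraph (Fin (VL s tg).length),
    adjMat G = mtx s tg ∧ (par s tg).IsModel G (fun i => (VL s tg).get i) := by
  classical
  have hval : ∀ i, (par s tg).valid ((VL s tg).get i) := fun i =>
    (mem_VL s tg _).1 (List.get_mem _ _)
  refine ⟨{ Adj := fun i j => (par s tg).Adj ((VL s tg).get i) ((VL s tg).get j)
            symm := ⟨fun i j hij => hij.symm⟩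
            loopless := ⟨fun i hi => hi.ne rfl⟩ }, ?_, ?_, hval, ?_, fun _ _ => Iff.rfl⟩
  · unfold adjMat mtx
    rw [CL_eq, List.map_map, map_eq_ofFn]
    congr 1
    funext i
    simp only [Function.comp]
    rw [List.map_map, map_eq_ofFn]
    congr 1
    funext j
    rw [Bool.eq_iff_iff]
    simp only [Function.comp, decide_eq_true_eq, Bool.or_eq_true]
    rw [EB_iff s tg (hval i) (hval j), EB_iff s tg (hval j) (hval i)]
    rfl
  · exact List.nodup_iff_injective_get.1 (nodup_VL s tg)
  · intro x hx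
    exact List.mem_iff_get.1 ((mem_VL s tg x).2 hx)

/-! ### Polynomial time -/

section poly

variable {α : Type} [TEnc α] {s tg : α → List ℕ}

theorem p_aL (hs : Poly s) (ht : Poly tg) {b : α → ℕ} (hb : Poly b) :
    Poly fun a => aL (s a) (tg a) (b a) := by
  have r : Poly fun a => List.range ((tg a).length + 1) :=
    ((UPoly.length ht).add (UPoly.const 1)).range
  unfold aL
  fun_prop

theorem p_PL (hs : Poly s) (ht : Poly tg) : Poly fun a => PL (s a) (tg a) :=
  Poly.add (p_aL hs ht (by fun_prop)) (NPC.Poly.const 1)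

theorem p_walls (hs : Poly s) (ht : Poly tg) : Poly fun a => wallsL (s a) (tg a) := by
  have r : Poly fun a => List.range ((tg a).length + 2) :=
    ((UPoly.length ht).add (UPoly.const 2)).range
  exact NPC.Poly.map r (p_aL (hs.comp (Poly.fst Poly.id)) (ht.comp (Poly.fst Poly.id))
    (Poly.snd Poly.id))

theorem p_frB {P j : α → ℕ} {W : α → List ℕ} {y : α → Code} (hP : Poly P) (hW : Poly W)
    (hy : Poly y) (hj : Poly j) : Poly fun a => frB (P a) (W a) (y a) (j a) := by
  unfold frB
  fun_prop

theorem p_EB {P : α → ℕ} {W : α → List ℕ} {x y : α → Code} (hP : Poly P) (hW : Poly W)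
    (hx : Poly x) (hy : Poly y) : Poly fun a => EB (P a) (W a) (x a) (y a) := by
  have h := p_frB hP hW hy (j := fun a => (x a).2.1) (by fun_prop)
  unfold EB
  fun_prop

theorem getD_le_sum (l : List ℕ) (j : ℕ) : l.getD j 0 ≤ l.sum := by
  rcases Nat.lt_or_ge j l.length with h | h
  · rw [List.getD_eq_getElem _ _ h]
    exact List.single_le_sum (fun _ _ => Nat.zero_le _) _ (List.getElem_mem h)
  · rw [List.getD_eq_default _ _ h]; exact Nat.zero_le _

theorem PL_le {s tg : List ℕ} (h : tg.sum ≤ s.sum) :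
    PL s tg = 6 * s.sum + 2 * (tg.length + 1) + 2 := by
  rw [PL_eq]
  unfold Par.P Par.a
  change 1 + ∑ b ∈ range (tg.length + 1), (6 * (tg ++ [s.sum - tg.sum]).getD b 0 + 2) + 1 = _
  rw [sum_add_distrib, ← mul_sum, cap_sum h]
  simp only [sum_const, card_range, smul_eq_mul]
  ring

theorem p_CL (hs : Poly s) (ht : Poly tg) {N : α → ℕ} (hN : UPoly N)
    (h1 : ∀ a, (tg a).sum ≤ (s a).sum) (h2 : ∀ a, (s a).sum ≤ N a) :
    Poly fun a => CL (s a) (tg a) := by
  have uP : UPoly fun a => PL (s a) (tg a) :=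
    UPoly.of_le (p_PL hs ht) ((((UPoly.const 6).mul hN).add ((UPoly.const 2).mul
      ((UPoly.length ht).add (UPoly.const 1)))).add (UPoly.const 2)) fun a => by
        rw [PL_le (h1 a)]
        have := h2 a
        omega
  have r1 : Poly fun a => List.range (61 * PL (s a) (tg a) + 1) :=
    (((UPoly.const 61).mul uP).add (UPoly.const 1)).range
  have r2 : Poly fun a => List.range (s a).length := (UPoly.length hs).range
  have r3 : Poly fun p : (α × ℕ) × ℕ => List.range (6 * (s p.1.1).getD p.2 0 + 1) := by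
    refine UPoly.range (UPoly.of_le (by fun_prop) (((UPoly.const 6).mul
      (hN.comp (Poly.fst (Poly.fst Poly.id)))).add (UPoly.const 1)) fun p => ?_)
    have := getD_le_sum (s p.1.1) p.2
    have := h2 p.1.1
    omega
  unfold CL
  refine Poly.append (NPC.Poly.const _) (Poly.append (NPC.Poly.map r1 (by fun_prop))
    (Poly.append (NPC.Poly.const _) (Poly.flatMap (NPC.Poly.const _)
      (Poly.flatMap (r2.comp (Poly.fst Poly.id)) (NPC.Poly.map r3 (by fun_prop))))))

theorem p_mtx (hs : Poly s) (ht : Poly tg) {N : α → ℕ} (hN : UPoly N)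
    (h1 : ∀ a, (tg a).sum ≤ (s a).sum) (h2 : ∀ a, (s a).sum ≤ N a) :
    Poly fun a => mtx (s a) (tg a) := by
  have hC := p_CL hs ht hN h1 h2
  have hP := (p_PL hs ht).comp (Poly.fst (Poly.fst (Poly.id (α := (α × Code) × Code))))
  have hW := (p_walls hs ht).comp (Poly.fst (Poly.fst (Poly.id (α := (α × Code) × Code))))
  unfold mtx
  exact NPC.Poly.map hC (NPC.Poly.map (hC.comp (Poly.fst Poly.id))
    (Poly.or (p_EB hP hW (Poly.snd (Poly.fst Poly.id)) (Poly.snd Poly.id))
      (p_EB hP hW (Poly.snd Poly.id) (Poly.snd (Poly.fst Poly.id)))))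

end poly

end Pool.Agent.H236Z.Book
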