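import Pool.Agent.H236Z.Book.SoundB

namespace Pool.Agent.H236Z.Book

open Finset

/-- A five page embedding of the whole graph. -/
structure Par.Emb (p : Par) (pos : Vx → ℤ) (pg : Vx → Vx → Fin 5) : Prop where
  inj : ∀ x y, p.valid x → p.valid y → pos x = pos y → x = y
  symm : ∀ x y, pg x y = pg y x
  nc : ∀ x y z w, p.Adj x y → p.Adj z w → pos x < pos z → pos z < pos y → pos y < pos w →
    pg x y ≠ pg z w

/-- Eleven full vertices with no hub between them. -/
structure Par.Zone (p : Par) (pos : Vx → ℤ) (g : ℕ → ℕ) : Prop where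
  lt : ∀ i ≤ 10, g i < 61
  mono : ∀ i j, i < j → j ≤ 10 → pos (.pv (g i * p.P)) < pos (.pv (g j * p.P))
  out : ∀ j < 5, pos (.hub j) < pos (.pv (g 0 * p.P)) ∨ pos (.pv (g 10 * p.P)) < pos (.hub j)

theorem agree_off {θ θ' : Fin 5 → Fin 5} (h : Function.Injective θ) (h' : Function.Injective θ')
    (i : Fin 5) (hh : ∀ l, l ≠ i → θ l = θ' l) : θ i = θ' i := by
  obtain ⟨l, hl⟩ := (Finite.injective_iff_surjective.1 h') (θ i)
  by_cases e : l = i
  · rw [← hl, e]
  · rw [← hh l e] at hl
    exact (e (h hl)).elim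

namespace Par

variable {p : Par}

theorem valid_full {c : ℕ} (hc : c ≤ 61) : p.valid (.pv (c * p.P)) := Nat.mul_le_mul_right _ hc

theorem adj_full {c j : ℕ} (hc : c ≤ 61) (hj : j < 5) : p.Adj (.hub j) (.pv (c * p.P)) :=
  Or.inl ⟨hj, valid_full hc, fun h => h.1 (Nat.mul_mod_left _ _)⟩

theorem In.ne_full {c : ℕ} {v : Vx} (hv : p.In c v) (c' : ℕ) : v ≠ .pv (c' * p.P) := by
  rintro rfl
  obtain ⟨h1, h2⟩ := hv
  have h3 : c < c' := Nat.lt_of_mul_lt_mul_right h1
  have h4 : (c + 1) * p.P ≤ c' * p.P := Nat.mul_le_mul_right _ h3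
  rw [Nat.succ_mul] at h4
  omega

theorem Cl.ne_hub {c : ℕ} {v : Vx} (hv : p.Cl c v) (j : ℕ) : v ≠ .hub j := by
  rintro rfl
  rcases hv with h | h | h
  · exact h
  · simp at h
  · simp at h

namespace Emb

variable {pos : Vx → ℤ} {pg : Vx → Vx → Fin 5} (h : p.Emb pos pg)
include h

theorem ne_of {x y : Vx} (hx : p.valid x) (hy : p.valid y) (hne : x ≠ y) : pos x ≠ pos y :=
  fun e => hne (h.inj x y hx hy e)

theorem nc' {x y z w : Vx} (hxy : p.Adj x y) (hzw : p.Adj z w) (hb : Btw (pos z) (pos x) (pos y))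
    (hn : ¬ Btw (pos w) (pos x) (pos y)) (h1 : pos w ≠ pos x) (h2 : pos w ≠ pos y) :
    pg x y ≠ pg z w := by
  unfold Btw at hb hn
  rcases hb with hb | hb
  · by_cases h3 : pos y < pos w
    · exact h.nc x y z w hxy hzw hb.1 hb.2 h3
    · rw [h.symm z w]
      exact (h.nc w z x y hzw.symm hxy (by omega) hb.1 hb.2).symm
  · rw [h.symm x y]
    by_cases h3 : pos x < pos w
    · exact h.nc y x z w hxy.symm hzw hb.1 hb.2 h3
    · rw [h.symm z w]
      exact (h.nc w z y x hzw.symm hxy.symm (by omega) hb.1 hb.2).symm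

theorem exists_zone : ∃ g, p.Zone pos g := by
  classical
  have hP := P_ge (p := p)
  let cls : ℕ → ℕ := fun c => ((range 5).filter fun j => pos (.hub j) < pos (.pv (c * p.P))).card
  obtain ⟨y, -, hy⟩ := exists_lt_card_fiber_of_mul_lt_card_of_maps_to (s := range 61)
    (t := range 6) (f := cls) (n := 10) (fun c _ => by
      have : cls c ≤ 5 := (card_filter_le _ _).trans (by simp)
      simp; omega) (by simp)
  set S := (range 61).filter fun c => cls c = y with hS
  have hinj : Set.InjOn (fun c => pos (.pv (c * p.P))) S := by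
    intro c hc c' hc' e
    have h1 : c < 61 := mem_range.1 (mem_filter.1 hc).1
    have h2 : c' < 61 := mem_range.1 (mem_filter.1 hc').1
    have := h.inj _ _ (valid_full h1.le) (valid_full h2.le) e
    simp only [Vx.pv.injEq] at this
    exact Nat.eq_of_mul_eq_mul_right (by omega) this
  have hT : 11 ≤ (S.image fun c => pos (.pv (c * p.P))).card := by
    rw [card_image_of_injOn hinj]; omega
  let e := (S.image fun c => pos (.pv (c * p.P))).orderEmbOfCardLe hT
  have he : ∀ i : Fin 11, ∃ c ∈ S, pos (.pv (c * p.P)) = e i := fun i =>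
    mem_image.1 (orderEmbOfCardLe_mem _ hT i)
  choose g hg1 hg2 using he
  have same : ∀ c ∈ S, ∀ c' ∈ S, pos (.pv (c * p.P)) ≤ pos (.pv (c' * p.P)) → ∀ j < 5,
      pos (.hub j) < pos (.pv (c' * p.P)) → pos (.hub j) < pos (.pv (c * p.P)) := by
    intro c hc c' hc' hle j hj hlt
    have e1 : ((range 5).filter fun j => pos (.hub j) < pos (.pv (c * p.P))) =
        ((range 5).filter fun j => pos (.hub j) < pos (.pv (c' * p.P))) := by
      apply eq_of_subset_of_card_le
      · intro j hj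
        rw [mem_filter] at hj ⊢
        exact ⟨hj.1, by omega⟩
      · have a1 : cls c = y := (mem_filter.1 hc).2
        have a2 : cls c' = y := (mem_filter.1 hc').2
        exact (a2.trans a1.symm).le
    have : j ∈ ((range 5).filter fun j => pos (.hub j) < pos (.pv (c * p.P))) := by
      rw [e1]; exact mem_filter.2 ⟨mem_range.2 hj, hlt⟩
    exact (mem_filter.1 this).2
  refine ⟨fun i => if hi : i < 11 then g ⟨i, hi⟩ else 0, ?_, ?_, ?_⟩
  · intro i hi
    rw [dif_pos (by omega)]
    exact mem_range.1 (mem_filter.1 (hg1 _)).1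
  · intro i j hij hj
    rw [dif_pos (by omega), dif_pos (by omega), hg2, hg2]
    exact e.strictMono hij
  · intro j hj
    rw [dif_pos (by omega), dif_pos (by omega)]
    by_cases h1 : pos (.hub j) < pos (.pv (g ⟨10, by omega⟩ * p.P))
    · left
      refine same _ (hg1 _) _ (hg1 _) ?_ j hj h1
      rw [hg2, hg2]
      exact e.monotone (by simp)
    · right
      have := h.ne_of (x := .hub j) hj (valid_full (c := g ⟨10, by omega⟩)
        (mem_range.1 (mem_filter.1 (hg1 _)).1).le) (by simp)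
      omega

variable {g : ℕ → ℕ} (z : p.Zone pos g)
include z

omit h z in
/-- The cyclic order of the hubs, seen from the zone. -/
def kap (p : Par) (pos : Vx → ℤ) (g : ℕ → ℕ) (j : Fin 5) : ℕ ×ₗ ℤ :=
  toLex (if pos (.hub j) < pos (.pv (g 0 * p.P)) then 1 else 0, pos (.hub j))

theorem cross {j j' : Fin 5} (hk : kap p pos g j < kap p pos g j') {v v' : Vx}
    (hv : p.Adj (.hub j) v) (hv' : p.Adj (.hub j') v') (h0 : pos (.pv (g 0 * p.P)) ≤ pos v)
    (h1 : pos v < pos v') (h2 : pos v' ≤ pos (.pv (g 10 * p.P))) :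
    pg (.hub j) v ≠ pg (.hub j') v' := by
  have o1 := z.out j j.2
  have o2 := z.out j' j'.2
  unfold kap at hk
  rw [Prod.Lex.toLex_lt_toLex] at hk
  dsimp only at hk
  have z0 := z.mono 0 10 (by omega) le_rfl
  symm
  by_cases hl : pos (.hub j') < pos (.pv (g 0 * p.P))
  · rw [h.symm (.hub j) v]
    rw [if_pos hl] at hk
    refine h.nc' hv' hv.symm (Or.inl ⟨by omega, h1⟩) ?_ ?_ ?_
    · unfold Btw; split_ifs at hk <;> omega
    · split_ifs at hk <;> omega
    · omega
  · rw [if_neg hl] at hk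
    refine h.nc' hv' hv (Or.inr ?_) ?_ ?_ ?_
    · by_cases hl' : pos (.hub j) < pos (.pv (g 0 * p.P))
      · rw [if_pos hl'] at hk
        simp at hk
      · rw [if_neg hl'] at hk
        omega
    · unfold Btw; omega
    · omega
    · omega

theorem exists_pi : ∃ π : Fin 5 ≃ Fin 5, ∀ (j : Fin 5) v, p.Adj (.hub j) v →
    pos (.pv (g 3 * p.P)) < pos v → pos v < pos (.pv (g 7 * p.P)) → pg (.hub j) v = π j := by
  have kinj : Function.Injective (kap p pos g) := by
    intro j j' e
    have e2 : pos (.hub j) = pos (.hub j') := congrArg (fun x => (ofLex x).2) e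
    have := h.inj (.hub j) (.hub j') j.2 j'.2 e2
    simp only [Vx.hub.injEq] at this
    exact Fin.ext this
  let σ := Tuple.sort (kap p pos g)
  have hσ : StrictMono (kap p pos g ∘ σ) :=
    (Tuple.monotone_sort _).strictMono_of_injective (kinj.comp σ.injective)
  have full : ∀ (j : Fin 5) i, i ≤ 10 → p.Adj (.hub j) (.pv (g i * p.P)) := fun j i hi =>
    adj_full (z.lt i hi).le j.2
  have m := z.mono
  have m03 := m 0 3 (by omega) (by omega)
  have m34 := m 3 4 (by omega) (by omega)
  have m45 := m 4 5 (by omega) (by omega)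
  have m57 := m 5 7 (by omega) (by omega)
  have m7 := m 7 10 (by omega) (by omega)
  have mle : ∀ i j, i ≤ j → j ≤ 10 → pos (.pv (g i * p.P)) ≤ pos (.pv (g j * p.P)) := by
    intro i j hij hj
    rcases hij.eq_or_lt with rfl | hij
    · exact le_rfl
    · exact (m i j hij hj).le
  let xs : Fin 5 → Vx → Fin 5 → Vx := fun i v l =>
    if l < i then .pv (g l * p.P) else if l = i then v else .pv (g (6 + l) * p.P)
  have tinj : ∀ (i : Fin 5) v, p.Adj (.hub (σ i)) v → pos (.pv (g 3 * p.P)) < pos v →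
      pos v < pos (.pv (g 7 * p.P)) → Function.Injective fun l => pg (.hub (σ l)) (xs i v l) := by
    intro i v hv h1 h2
    have adj : ∀ l, p.Adj (.hub (σ l)) (xs i v l) := by
      intro l
      simp only [xs]
      split_ifs with a b
      · exact full _ _ (by omega)
      · rw [b]; exact hv
      · exact full _ _ (by omega)
    have bd : ∀ l, pos (.pv (g 0 * p.P)) ≤ pos (xs i v l) ∧
        pos (xs i v l) ≤ pos (.pv (g 10 * p.P)) := by
      intro l
      simp only [xs]
      split_ifs with a b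
      · exact ⟨mle _ _ (by omega) (by omega), mle _ _ (by omega) le_rfl⟩
      · omega
      · exact ⟨mle _ _ (by omega) (by omega), mle _ _ (by omega) le_rfl⟩
    have lt : ∀ l l', l < l' → pos (xs i v l) < pos (xs i v l') := by
      intro l l' hl
      simp only [xs]
      split_ifs with a b c d e f k
      · exact m _ _ hl (by omega)
      · have := mle l 3 (by omega) (by omega); omega
      · exact m _ _ (by omega) (by omega)
      · omega
      · omega
      · have := mle 7 (6 + l') (by omega) (by omega); omega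
      · omega
      · omega
      · exact m _ _ (by omega) (by omega)
    have ne : ∀ l l', l < l' → pg (.hub (σ l)) (xs i v l) ≠ pg (.hub (σ l')) (xs i v l') :=
      fun l l' hl => h.cross z (hσ hl) (adj l) (adj l') (bd l).1 (lt l l' hl) (bd l').2
    intro l l' e
    rcases lt_trichotomy l l' with a | a | a
    · exact (ne l l' a e).elim
    · exact a
    · exact (ne l' l a e.symm).elim
  have same : ∀ (j : Fin 5) v, p.Adj (.hub j) v → pos (.pv (g 3 * p.P)) < pos v →
      pos v < pos (.pv (g 7 * p.P)) → pg (.hub j) v = pg (.hub j) (.pv (g 4 * p.P)) := by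
    intro j v hv h1 h2
    obtain ⟨i, rfl⟩ := σ.surjective j
    have := agree_off (tinj i v hv h1 h2)
      (tinj i (.pv (g 4 * p.P)) (full _ _ (by omega)) m34 (by omega)) i (by
        intro l hl
        simp only [xs, if_neg hl])
    simpa [xs] using this
  have pinj : Function.Injective fun j : Fin 5 => pg (.hub j) (.pv (g 4 * p.P)) := by
    have ne : ∀ j j' : Fin 5, kap p pos g j < kap p pos g j' →
        pg (.hub j) (.pv (g 4 * p.P)) ≠ pg (.hub j') (.pv (g 4 * p.P)) := by
      intro j j' hk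
      rw [← same j' (.pv (g 5 * p.P)) (full _ _ (by omega)) (by omega) m57]
      exact h.cross z hk (full _ _ (by omega)) (full _ _ (by omega)) (by omega) m45 (by omega)
    intro j j' e
    rcases lt_trichotomy (kap p pos g j) (kap p pos g j') with a | a | a
    · exact (ne j j' a e).elim
    · exact kinj a
    · exact (ne j' j a e.symm).elim
  exact ⟨Equiv.ofBijective _ (Finite.injective_iff_bijective.1 pinj), same⟩

omit z in
theorem block {π : Fin 5 ≃ Fin 5} (hπ : ∀ (j : Fin 5) v, p.Adj (.hub j) v →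
      pos (.pv (g 3 * p.P)) < pos v → pos v < pos (.pv (g 7 * p.P)) → pg (.hub j) v = π j)
    {x y : Vx} (hxy : p.Adj x y) (nx : ∀ j, x ≠ .hub j) (ny : ∀ j, y ≠ .hub j) {c c' : ℕ}
    (hc : c ≤ 61) (hc' : c' ≤ 61)
    (h1 : pos (.pv (g 3 * p.P)) < pos (.pv (c * p.P)))
    (h2 : pos (.pv (c * p.P)) < pos (.pv (g 7 * p.P)))
    (h3 : pos (.pv (g 3 * p.P)) < pos (.pv (c' * p.P)))
    (h4 : pos (.pv (c' * p.P)) < pos (.pv (g 7 * p.P)))
    (hb : Btw (pos (.pv (c * p.P))) (pos x) (pos y))
    (hn : (pos (.pv (c' * p.P)) < pos x ∧ pos (.pv (c' * p.P)) < pos y) ∨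
      (pos x < pos (.pv (c' * p.P)) ∧ pos y < pos (.pv (c' * p.P)))) : False := by
  obtain ⟨j, hj⟩ := π.surjective (pg x y)
  have n1 := h.ne_of (x := .hub j) j.2 hxy.valid.1 (nx j).symm
  have n2 := h.ne_of (x := .hub j) j.2 hxy.valid.2 (ny j).symm
  by_cases hh : Btw (pos (.hub j)) (pos x) (pos y)
  · refine h.nc' hxy (adj_full hc' j.2) hh ?_ (by omega) (by omega) ?_
    · unfold Btw; omega
    · rw [hπ j _ (adj_full hc' j.2) h3 h4, hj]
  · refine h.nc' hxy (adj_full hc j.2).symm hb hh n1 n2 ?_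
    rw [h.symm _ (.hub j), hπ j _ (adj_full hc j.2) h1 h2, hj]

theorem exists_loc' : ∃ c, c < 61 ∧ ∃ π : Fin 5 ≃ Fin 5,
    (∀ x y v, p.Adj x y → p.Cl c x → p.Cl c y → p.In c v → Btw (pos v) (pos x) (pos y) →
      p.fr v (π.symm (pg x y))) ∧
    ((∀ v, p.In c v → pos (.pv (c * p.P)) < pos v ∧ pos v < pos (.pv (c * p.P + p.P))) ∨
      (∀ v, p.In c v → pos (.pv (c * p.P + p.P)) < pos v ∧ pos v < pos (.pv (c * p.P)))) := by
  obtain ⟨π, hπ⟩ := h.exists_pi z
  have hP := P_ge (p := p)
  have m := z.mono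
  have m03 := m 0 3 (by omega) (by omega)
  have m34 := m 3 4 (by omega) (by omega)
  have m45 := m 4 5 (by omega) (by omega)
  have m56 := m 5 6 (by omega) (by omega)
  have m67 := m 6 7 (by omega) (by omega)
  have m7 := m 7 10 (by omega) (by omega)
  have l4 := z.lt 4 (by omega)
  have l6 := z.lt 6 (by omega)
  obtain ⟨s, hs⟩ : ∃ s, s = g 5 := ⟨_, rfl⟩
  rw [← hs] at m45 m56
  have ls : s < 61 := hs ▸ z.lt 5 (by omega)
  have eB : s * p.P + p.P = (s + 1) * p.P := by ring
  have stay : ∀ a b, a ≤ 61 → b ≤ 61 → pos (.pv (g 3 * p.P)) < pos (.pv (a * p.P)) →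
      pos (.pv (b * p.P)) < pos (.pv (g 7 * p.P)) → ∀ x y, p.Adj x y → p.Cl s x → p.Cl s y →
      pos (.pv (a * p.P)) < pos x → pos x < pos (.pv (b * p.P)) →
      pos (.pv (a * p.P)) ≤ pos y ∧ pos y ≤ pos (.pv (b * p.P)) := by
    intro a b ha hb h1 h2 x y hxy hx hy h3 h4
    constructor
    · by_contra h5
      exact h.block hπ hxy hx.ne_hub hy.ne_hub ha hb h1 (by omega) (by omega) h2
        (Or.inr ⟨by omega, h3⟩) (Or.inr ⟨h4, by omega⟩)
    · by_contra h5
      exact h.block hπ hxy hx.ne_hub hy.ne_hub hb ha (by omega) h2 h1 (by omega)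
        (Or.inl ⟨h4, by omega⟩) (Or.inl ⟨h3, by omega⟩)
  have i1 : p.In s (.pv (s * p.P + 1)) := in_w (by omega) (by omega)
  have nef : ∀ v, p.In s v → ∀ a, a ≤ 61 → pos v ≠ pos (.pv (a * p.P)) := fun v hv a ha =>
    h.ne_of (hv.valid ls) (valid_full ha) (hv.ne_full a)
  have allin : ∀ a b, a ≤ 61 → b ≤ 61 → pos (.pv (g 3 * p.P)) < pos (.pv (a * p.P)) →
      pos (.pv (b * p.P)) < pos (.pv (g 7 * p.P)) →
      pos (.pv (a * p.P)) < pos (.pv (s * p.P + 1)) → pos (.pv (s * p.P + 1)) < pos (.pv (b * p.P)) →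
      ∀ v, p.In s v → pos (.pv (a * p.P)) < pos v ∧ pos v < pos (.pv (b * p.P)) := by
    intro a b ha hb h1 h2 h3 h4
    have r1 := stay a b ha hb h1 h2 _ _ (adj_root ls i1 (by simp)).symm (Or.inl i1) (Or.inl rfl)
      h3 h4
    have r2 := nef (.rt s) rfl a ha
    have r3 := nef (.rt s) rfl b hb
    intro v hv
    by_cases e : v = .rt s
    · rw [e]; omega
    · have r4 := stay a b ha hb h1 h2 _ _ (adj_root ls hv e) (Or.inl rfl) (Or.inl hv)
        (by omega) (by omega)
      have r5 := nef v hv a ha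
      have r6 := nef v hv b hb
      omega
  have a1 : p.Adj (.pv (s * p.P)) (.pv (s * p.P + 1)) := adj_w (i := 0) ls (by omega)
  have cA : p.Cl s (.pv (s * p.P)) := Or.inr (Or.inl rfl)
  have cB : p.Cl s (.pv (s * p.P + p.P)) := Or.inr (Or.inr rfl)
  have i2 : p.In s (.pv (s * p.P + (p.P - 1))) := in_w (by omega) (by omega)
  have a2 : p.Adj (.pv (s * p.P + (p.P - 1))) (.pv (s * p.P + p.P)) := by
    have := adj_w (p := p) (i := p.P - 1) ls (by omega)
    rwa [show p.P - 1 + 1 = p.P by omega] at this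
  have nAB : pos (.pv (s * p.P)) ≠ pos (.pv (s * p.P + p.P)) :=
    h.ne_of (cA.valid ls) (cB.valid ls) (by simp; omega)
  have n1 := nef _ i1 s ls.le
  have n4 := nef _ i1 (g 4) l4.le
  have n6 := nef _ i1 (g 6) l6.le
  have nB := nef _ i1 (s + 1) ls
  have b1 : pos (.pv (s * p.P + 1)) < pos (.pv (g 6 * p.P)) := by
    by_contra h5
    exact h.block hπ a1 cA.ne_hub (Cl.ne_hub (Or.inl i1)) l6.le l4.le (by omega) m67 m34 (by omega)
      (Or.inl ⟨m56, by omega⟩) (Or.inl ⟨m45, by omega⟩)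
  have b2 : pos (.pv (g 4 * p.P)) < pos (.pv (s * p.P + 1)) := by
    by_contra h5
    exact h.block hπ a1 cA.ne_hub (Cl.ne_hub (Or.inl i1)) l4.le l6.le m34 (by omega) (by omega) m67
      (Or.inr ⟨by omega, m45⟩) (Or.inr ⟨m56, b1⟩)
  have fin : ((∀ v, p.In s v → pos (.pv (s * p.P)) < pos v ∧ pos v < pos (.pv (s * p.P + p.P))) ∨
      (∀ v, p.In s v → pos (.pv (s * p.P + p.P)) < pos v ∧ pos v < pos (.pv (s * p.P)))) ∧
      pos (.pv (g 4 * p.P)) ≤ pos (.pv (s * p.P + p.P)) ∧
      pos (.pv (s * p.P + p.P)) ≤ pos (.pv (g 6 * p.P)) := by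
    rcases lt_or_gt_of_ne n1 with h5 | h5
    · have k1 := allin (g 4) s l4.le ls.le m34 (by omega) b2 h5 _ i2
      have k2 := stay (g 4) s l4.le ls.le m34 (by omega) _ _ a2 (Or.inl i2) cB k1.1 k1.2
      refine ⟨Or.inr ?_, by omega, by omega⟩
      rw [eB] at k2 nAB ⊢
      refine allin (s + 1) s ls ls.le (by omega) (by omega) ?_ h5
      by_contra h6
      exact h.block hπ a1 cA.ne_hub (Cl.ne_hub (Or.inl i1)) (c := s + 1) ls l6.le (by omega)
        (by omega) (by omega) m67 (Or.inr ⟨by omega, by omega⟩) (Or.inr ⟨m56, b1⟩)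
    · have k1 := allin s (g 6) ls.le l6.le (by omega) m67 h5 b1 _ i2
      have k2 := stay s (g 6) ls.le l6.le (by omega) m67 _ _ a2 (Or.inl i2) cB k1.1 k1.2
      refine ⟨Or.inl ?_, by omega, by omega⟩
      rw [eB] at k2 nAB ⊢
      refine allin s (s + 1) ls.le ls (by omega) (by omega) h5 ?_
      by_contra h6
      exact h.block hπ a1 cA.ne_hub (Cl.ne_hub (Or.inl i1)) (c := s + 1) ls l4.le (by omega)
        (by omega) m34 (by omega) (Or.inl ⟨by omega, by omega⟩) (Or.inl ⟨m45, b2⟩)
  refine ⟨s, ls, π, ?_, fin.1⟩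
  have rng : ∀ x, p.Cl s x → pos (.pv (g 4 * p.P)) ≤ pos x ∧ pos x ≤ pos (.pv (g 6 * p.P)) := by
    intro x hx
    rcases hx with hx | rfl | rfl
    · rcases fin.1 with k | k
      · have := k x hx; omega
      · have := k x hx; omega
    · omega
    · exact fin.2
  intro x y v hxy hx hy hv hb
  by_contra hcon
  have av : p.Adj (.hub (π.symm (pg x y))) v := Or.inl ⟨(π.symm (pg x y)).2, hv.valid ls, hcon⟩
  have r1 := rng x hx
  have r2 := rng y hy
  have r3 := rng v (Or.inl hv)
  have o := z.out _ (π.symm (pg x y)).2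
  refine h.nc' hxy av.symm hb ?_ (by omega) (by omega) ?_
  · unfold Btw; omega
  · rw [h.symm v, hπ _ v av (by omega) (by omega), Equiv.apply_symm_apply]

omit z in
theorem pack (hs : ∀ j < p.m, 1 ≤ p.s j) : p.Pack := by
  obtain ⟨g, z⟩ := h.exists_zone
  obtain ⟨c, hc, π, h1, h2⟩ := h.exists_loc' z
  have lne : ∀ {a b : Fin 5}, a ≠ b → ((π.symm a : Fin 5) : ℕ) ≠ ((π.symm b : Fin 5) : ℕ) :=
    fun hab e => hab (π.symm.injective (Fin.ext e))
  rcases h2 with h2 | h2
  · have L : p.Loc c pos (fun x y => (π.symm (pg x y) : ℕ)) :=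
      ⟨hc, h.inj, fun x y => by rw [h.symm], fun x y z w a b c d e => lne (h.nc x y z w a b c d e),
        h2, fun x y v a b c d e f => h1 x y v a b c d (Or.inl ⟨e, f⟩)⟩
    exact L.pack hs
  · have L : p.Loc c (fun v => - pos v) (fun x y => (π.symm (pg x y) : ℕ)) :=
      ⟨hc, fun x y a b e => h.inj x y a b (neg_injective e), fun x y => by rw [h.symm],
        fun x y z w a b c d e => by
          have := h.nc w z y x b.symm a.symm (by omega) (by omega) (by omega)
          rw [h.symm w z, h.symm y x] at this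
          exact lne this.symm,
        fun v hv => by have := h2 v hv; omega,
        fun x y v a b c d e f => h1 x y v a b c d (Or.inr ⟨by omega, by omega⟩)⟩
    exact L.pack hs

end Emb

end Par

end Pool.Agent.H236Z.Book
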