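import Pool.Agent.H236Z.Book.Graph

namespace Pool.Agent.H236Z.Book

open Finset

/-- `z` lies strictly between `x` and `y`. -/
def Btw (z x y : ℤ) : Prop := (x < z ∧ z < y) ∨ (y < z ∧ z < x)

namespace Par.Loc

variable {p : Par} {c : ℕ} {pos : Vx → ℤ} {lab : Vx → Vx → ℕ} (h : p.Loc c pos lab)
include h

theorem ov' {x y v : Vx} (hxy : p.Adj x y) (hx : p.Cl c x) (hy : p.Cl c y) (hv : p.In c v)
    (hb : Btw (pos v) (pos x) (pos y)) : p.fr v (lab x y) := by
  rcases hb with hb | hb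
  · exact h.ov x y v hxy hx hy hv hb.1 hb.2
  · rw [h.symm]; exact h.ov y x v hxy.symm hy hx hv hb.1 hb.2

theorem nc' {x y z w : Vx} (hxy : p.Adj x y) (hzw : p.Adj z w) (hb : Btw (pos z) (pos x) (pos y))
    (hn : ¬ Btw (pos w) (pos x) (pos y)) (h1 : pos w ≠ pos x) (h2 : pos w ≠ pos y) :
    lab x y ≠ lab z w := by
  unfold Btw at hb hn
  rcases hb with hb | hb
  · by_cases h3 : pos y < pos w
    · exact h.nc x y z w hxy hzw hb.1 hb.2 h3
    · rw [h.symm z w]
      exact (h.nc w z x y hzw.symm hxy (by omega) hb.1 hb.2).symm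
  · rw [h.symm x y]
    by_cases h3 : pos x < pos w
    · exact h.nc y x z w hxy.symm hzw hb.1 hb.2 h3
    · rw [h.symm z w]
      exact (h.nc w z y x hzw.symm hxy.symm (by omega) hb.1 hb.2).symm

theorem ne_of {x y : Vx} (hx : p.Cl c x) (hy : p.Cl c y) (hne : x ≠ y) : pos x ≠ pos y :=
  fun e => hne (h.inj x y (hx.valid h.hc) (hy.valid h.hc) e)

theorem W_inj {i j : ℕ} (hi : i ≤ p.P) (hj : j ≤ p.P)
    (e : pos (.pv (c * p.P + i)) = pos (.pv (c * p.P + j))) : i = j := by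
  have := h.inj _ _ ((cl_w hi).valid h.hc) ((cl_w hj).valid h.hc) e
  simpa using this

theorem W_lo {i : ℕ} (hi : i ≤ p.P) : pos (.pv (c * p.P)) ≤ pos (.pv (c * p.P + i)) := by
  rcases Nat.eq_zero_or_pos i with rfl | h0
  · exact le_rfl
  · rcases hi.eq_or_lt with rfl | h1
    · have := h.inside (.rt c) rfl
      omega
    · exact (h.inside _ (in_w h0 h1)).1.le

theorem W_hi {i : ℕ} (hi : i ≤ p.P) : pos (.pv (c * p.P + i)) ≤ pos (.pv (c * p.P + p.P)) := by
  rcases Nat.eq_zero_or_pos i with rfl | h0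
  · have := h.inside (.rt c) rfl
    simp only [add_zero]
    omega
  · rcases hi.eq_or_lt with rfl | h1
    · exact le_rfl
    · exact (h.inside _ (in_w h0 h1)).2.le

theorem ivt {v : Vx} (hv : p.In c v) (hne : ∀ q, v ≠ .pv q) : ∀ n ≤ p.P,
    pos v < pos (.pv (c * p.P + n)) → ∃ i < n, pos (.pv (c * p.P + i)) < pos v ∧
      ∀ j, i < j → j ≤ n → pos v < pos (.pv (c * p.P + j)) := by
  intro n
  induction n with
  | zero =>
    intro _ h1
    have := (h.inside v hv).1
    simp only [add_zero] at h1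
    omega
  | succ n ih =>
    intro hn h1
    by_cases h2 : pos (.pv (c * p.P + n)) < pos v
    · refine ⟨n, by omega, h2, fun j h3 h4 => ?_⟩
      have : j = n + 1 := by omega
      rw [this]; exact h1
    · have h3 := h.ne_of (Or.inl hv) (cl_w (i := n) (by omega)) (hne _)
      obtain ⟨i, hi, h4, h5⟩ := ih (by omega) (by omega)
      refine ⟨i, by omega, h4, fun j h6 h7 => ?_⟩
      rcases h7.eq_or_lt with rfl | h8
      · exact h1
      · exact h5 j h6 (by omega)

theorem root_slot : ∃ i < p.P, pos (.pv (c * p.P + i)) < pos (.rt c) ∧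
    pos (.rt c) < pos (.pv (c * p.P + (i + 1))) ∧ ∀ j t, p.In c (.iv c j t) →
      pos (.iv c j t) < pos (.pv (c * p.P + i)) ∨
        pos (.pv (c * p.P + (i + 1))) < pos (.iv c j t) := by
  obtain ⟨i, hi, h1, h2⟩ := h.ivt (v := .rt c) rfl (by simp) p.P le_rfl (h.inside (.rt c) rfl).2
  have h3 := h2 (i + 1) (by omega) hi
  refine ⟨i, hi, h1, h3, fun j t hu => ?_⟩
  have h4 : lab (.pv (c * p.P + i)) (.pv (c * p.P + (i + 1))) = 2 :=
    h.ov _ _ (.rt c) (adj_w h.hc hi) (cl_w hi.le) (cl_w hi) rfl h1 h3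
  have n1 := h.ne_of (Or.inl hu) (cl_w (i := i) hi.le) (by simp)
  have n2 := h.ne_of (Or.inl hu) (cl_w (i := i + 1) hi) (by simp)
  by_contra hcon
  have h5 := h.ov _ _ _ (adj_w h.hc hi) (cl_w hi.le) (cl_w hi) hu (by omega) (by omega)
  rw [h4] at h5
  rcases h5 with h5 | h5 <;> omega

theorem root_lab {v : Vx} (hv : p.In c v) (hne : v ≠ .rt c) {j t : ℕ} (hu : p.In c (.iv c j t))
    (hb : Btw (pos (.iv c j t)) (pos (.rt c)) (pos v)) : lab (.rt c) v = 1 := by
  obtain ⟨i, hi, h1, h2, h3⟩ := h.root_slot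
  have ha := adj_root h.hc hv hne
  have hr : p.Cl c (.rt c) := Or.inl rfl
  have h4 := h.ov' ha hr (Or.inl hv) hu hb
  have h5 := h3 j t hu
  have h6 := h.inside _ hu
  have key : ∀ k, 0 < k → k < p.P → Btw (pos (.pv (c * p.P + k))) (pos (.rt c)) (pos v) →
      lab (.rt c) v = 1 := by
    intro k k0 k1 hk
    have h7 := fr_w k1 (h.ov' ha hr (Or.inl hv) (in_w k0 k1) hk)
    rcases h4 with h4 | h4
    · exact h4
    · omega
  unfold Btw at hb key
  rcases hb with hb | hb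
  · refine key (i + 1) (by omega) ?_ (by omega)
    rcases (show i + 1 ≤ p.P from hi).eq_or_lt with e | e
    · rw [e] at h5; omega
    · exact e
  · refine key i ?_ hi (by omega)
    rcases Nat.eq_zero_or_pos i with rfl | e
    · simp only [add_zero] at h5; omega
    · exact e

theorem not_one {x y v : Vx} (hxy : p.Adj x y) (hx : p.Cl c x) (hy : p.Cl c y) (nx : x ≠ .rt c)
    (ny : y ≠ .rt c) (hv : p.In c v) (nv : v ≠ .rt c) (hb : Btw (pos v) (pos x) (pos y))
    (hl : lab (.rt c) v = 1) : lab x y ≠ 1 := by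
  intro h1
  have hr : p.Cl c (.rt c) := Or.inl rfl
  have h2 : ¬ Btw (pos (.rt c)) (pos x) (pos y) := by
    intro h2
    have h3 : lab x y = 2 := h.ov' (v := .rt c) hxy hx hy rfl h2
    omega
  have := h.nc' hxy (adj_root h.hc hv nv).symm hb h2 (h.ne_of hr hx nx.symm) (h.ne_of hr hy ny.symm)
  rw [h.symm v, hl] at this
  exact this h1

theorem pe_lab {j t i : ℕ} (hu : p.In c (.iv c j t)) (hg : lab (.rt c) (.iv c j t) = 1)
    (hi : i < p.P)
    (hb : Btw (pos (.iv c j t)) (pos (.pv (c * p.P + i))) (pos (.pv (c * p.P + (i + 1))))) :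
    lab (.pv (c * p.P + i)) (.pv (c * p.P + (i + 1))) = 3 + t % 2 ∧ ∀ k, 0 < k → k < p.P →
      ¬ Btw (pos (.pv (c * p.P + k))) (pos (.pv (c * p.P + i))) (pos (.pv (c * p.P + (i + 1)))) := by
  have h1 := h.ov' (adj_w h.hc hi) (cl_w hi.le) (cl_w hi) hu hb
  have h2 := h.not_one (adj_w h.hc hi) (cl_w hi.le) (cl_w hi) (by simp) (by simp) hu (by simp) hb hg
  have h3 : lab (.pv (c * p.P + i)) (.pv (c * p.P + (i + 1))) = 3 + t % 2 := by
    rcases h1 with h1 | h1
    · exact (h2 h1).elim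
    · exact h1
  refine ⟨h3, fun k k0 k1 hk => ?_⟩
  have h4 := fr_w k1 (h.ov' (adj_w h.hc hi) (cl_w hi.le) (cl_w hi) (in_w k0 k1) hk)
  omega

theorem good_idx {j t : ℕ} (hu : p.In c (.iv c j t)) (hg : lab (.rt c) (.iv c j t) = 1) :
    ∃ i < p.P, (∀ k ≤ p.P, pos (.pv (c * p.P + k)) < pos (.iv c j t) ↔ k ≤ i) ∧
      lab (.pv (c * p.P + i)) (.pv (c * p.P + (i + 1))) = 3 + t % 2 := by
  obtain ⟨i, hi, h1, h2⟩ := h.ivt hu (by simp) p.P le_rfl (h.inside _ hu).2
  have h3 := h2 (i + 1) (by omega) hi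
  obtain ⟨h4, h5⟩ := h.pe_lab hu hg hi (Or.inl ⟨h1, h3⟩)
  refine ⟨i, hi, fun k hk => ⟨fun h6 => ?_, fun h6 => ?_⟩, h4⟩
  · by_contra h7
    have := h2 k (by omega) hk
    omega
  · by_contra h7
    have n1 := h.ne_of (Or.inl hu) (cl_w (i := k) hk) (by simp)
    obtain ⟨i', hi', h8, h9⟩ := h.ivt hu (by simp) k hk (by omega)
    have h10 := h9 (i' + 1) (by omega) hi'
    obtain ⟨-, h11⟩ := h.pe_lab hu hg (i := i') (by omega) (Or.inl ⟨h8, h10⟩)
    have n2 : pos (.pv (c * p.P + i)) ≠ pos (.pv (c * p.P + i')) := fun e => by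
      have := h.W_inj hi.le (by omega) e
      omega
    rcases lt_or_gt_of_ne n2 with h12 | h12
    · refine h5 i' ?_ (by omega) (Or.inl ⟨h12, by omega⟩)
      rcases Nat.eq_zero_or_pos i' with rfl | e
      · have := h.W_lo hi.le
        simp only [add_zero] at h12
        omega
      · exact e
    · exact h11 i (by omega) hi (Or.inl ⟨h12, by omega⟩)

theorem item_over {j t k : ℕ} (hj : j < p.m) (ht : t < 6 * p.s j) (k0 : 0 < k) (k1 : k < p.P)
    (hb : Btw (pos (.pv (c * p.P + k))) (pos (.iv c j t)) (pos (.iv c j (t + 1)))) :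
    lab (.iv c j t) (.iv c j (t + 1)) = 0 ∧ ¬ p.wall k := by
  have u1 : p.In c (.iv c j t) := ⟨rfl, hj, ht.le⟩
  have u2 : p.In c (.iv c j (t + 1)) := ⟨rfl, hj, ht⟩
  have ha := adj_item h.hc hj ht
  have h1 := fr_w k1 (h.ov' ha (Or.inl u1) (Or.inl u2) (in_w k0 k1) hb)
  have h2 : ¬ Btw (pos (.rt c)) (pos (.iv c j t)) (pos (.iv c j (t + 1))) := by
    intro h2
    have h3 : lab (.iv c j t) (.iv c j (t + 1)) = 2 :=
      h.ov' (v := .rt c) ha (Or.inl u1) (Or.inl u2) rfl h2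
    omega
  have hr : p.Cl c (.rt c) := Or.inl rfl
  have n1 := h.ne_of hr (Or.inl u1) (by simp)
  have n2 := h.ne_of hr (Or.inl u2) (by simp)
  have h3 : lab (.rt c) (.pv (c * p.P + k)) = 1 := by
    by_cases h4 : Btw (pos (.iv c j t)) (pos (.rt c)) (pos (.pv (c * p.P + k)))
    · exact h.root_lab (in_w k0 k1) (by simp) u1 h4
    · refine h.root_lab (in_w k0 k1) (by simp) u2 ?_
      unfold Btw at *
      omega
  have h4 := h.not_one ha (Or.inl u1) (Or.inl u2) (by simp) (by simp) (in_w k0 k1) (by simp) hb h3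
  rcases h1 with h1 | h1
  · exact (h4 h1).elim
  · exact h1

theorem no_wall {j b : ℕ} (hj : j < p.m) (hb : b ≤ p.K) : ∀ t ≤ 6 * p.s j,
    (pos (.pv (c * p.P + p.a b)) < pos (.iv c j t) ↔
      pos (.pv (c * p.P + p.a b)) < pos (.iv c j 0)) := by
  intro t
  induction t with
  | zero => intro _; rfl
  | succ t ih =>
    intro ht
    rw [← ih (by omega)]
    have u1 : p.In c (.iv c j t) := ⟨rfl, hj, by omega⟩
    have u2 : p.In c (.iv c j (t + 1)) := ⟨rfl, hj, ht⟩
    have n1 := h.ne_of (Or.inl u1) (cl_w (i := p.a b) (a_lt_P hb).le) (by simp)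
    have n2 := h.ne_of (Or.inl u2) (cl_w (i := p.a b) (a_lt_P hb).le) (by simp)
    have h1 : ¬ Btw (pos (.pv (c * p.P + p.a b))) (pos (.iv c j t)) (pos (.iv c j (t + 1))) :=
      fun h1 => (h.item_over hj ht (a_pos b) (a_lt_P hb) h1).2 ⟨b, hb, rfl⟩
    unfold Btw at h1
    omega

omit h in
theorem exists_bin {z : ℕ} (h0 : 0 < z) (h1 : z < p.P) (hw : ¬ p.wall z) :
    ∃ b < p.K, p.a b < z ∧ z < p.a (b + 1) := by
  have key : ∀ n ≤ p.K, z < p.a n → ∃ b < n, p.a b < z ∧ z < p.a (b + 1) := by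
    intro n
    induction n with
    | zero => intro _ h2; rw [a_zero] at h2; omega
    | succ n ih =>
      intro hn h2
      by_cases h3 : p.a n < z
      · exact ⟨n, by omega, h3, h2⟩
      · have h4 : p.a n ≠ z := fun e => hw ⟨n, by omega, e⟩
        obtain ⟨b, hb, h5⟩ := ih (by omega) (by omega)
        exact ⟨b, by omega, h5⟩
  have h2 : p.a p.K ≠ z := fun e => hw ⟨p.K, le_rfl, e⟩
  exact key p.K le_rfl (by unfold P at h1; omega)

/-- A good item edge passes over a path vertex of the bin of its item. -/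
theorem good_edge {j t : ℕ} (hj : j < p.m) (ht : t < 6 * p.s j)
    (g1 : lab (.rt c) (.iv c j t) = 1) (g2 : lab (.rt c) (.iv c j (t + 1)) = 1) :
    ∃ z b, b < p.K ∧ p.a b < z ∧ z < p.a (b + 1) ∧
      Btw (pos (.pv (c * p.P + z))) (pos (.iv c j t)) (pos (.iv c j (t + 1))) ∧
      ∀ b' ≤ p.K, pos (.pv (c * p.P + p.a b')) < pos (.iv c j 0) ↔ b' ≤ b := by
  have u1 : p.In c (.iv c j t) := ⟨rfl, hj, ht.le⟩
  have u2 : p.In c (.iv c j (t + 1)) := ⟨rfl, hj, ht⟩
  obtain ⟨i1, hi1, a1, l1⟩ := h.good_idx u1 g1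
  obtain ⟨i2, hi2, a2, l2⟩ := h.good_idx u2 g2
  have hne : i1 ≠ i2 := by
    rintro rfl
    omega
  have main : ∀ z t', t' ≤ 6 * p.s j → 0 < z → z < p.P →
      (∀ k ≤ p.P, pos (.pv (c * p.P + k)) < pos (.iv c j t') ↔ k ≤ z) →
      Btw (pos (.pv (c * p.P + z))) (pos (.iv c j t)) (pos (.iv c j (t + 1))) →
      ∃ z b, b < p.K ∧ p.a b < z ∧ z < p.a (b + 1) ∧
      Btw (pos (.pv (c * p.P + z))) (pos (.iv c j t)) (pos (.iv c j (t + 1))) ∧
      ∀ b' ≤ p.K, pos (.pv (c * p.P + p.a b')) < pos (.iv c j 0) ↔ b' ≤ b := by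
    intro z t' ht' z0 z1 hz hb
    obtain ⟨b, hb1, hb2, hb3⟩ := exists_bin z0 z1 (h.item_over hj ht z0 z1 hb).2
    refine ⟨z, b, hb1, hb2, hb3, hb, fun b' hb' => ?_⟩
    rw [← h.no_wall hj hb' t' ht', hz _ (a_lt_P hb').le]
    constructor
    · intro h1
      by_contra h2
      have := (a_strictMono (p := p)).monotone (show b + 1 ≤ b' by omega)
      omega
    · intro h1
      have := (a_strictMono (p := p)).monotone h1
      omega
  rcases lt_or_gt_of_ne hne with h1 | h1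
  · refine main i2 (t + 1) ht (by omega) hi2 a2 (Or.inl ⟨?_, (a2 i2 hi2.le).2 le_rfl⟩)
    have n1 := h.ne_of (Or.inl u1) (cl_w (i := i2) hi2.le) (by simp)
    have := a1 i2 hi2.le
    omega
  · refine main i1 t ht.le (by omega) hi1 a1 (Or.inr ⟨?_, (a1 i1 hi1.le).2 le_rfl⟩)
    have n1 := h.ne_of (Or.inl u2) (cl_w (i := i1) hi1.le) (by simp)
    have := a2 i1 hi1.le
    omega

theorem edge_inj {j t j' t' z : ℕ} (hj : j < p.m) (ht : t < 6 * p.s j) (hj' : j' < p.m)
    (ht' : t' < 6 * p.s j') (z0 : 0 < z) (z1 : z < p.P)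
    (hb : Btw (pos (.pv (c * p.P + z))) (pos (.iv c j t)) (pos (.iv c j (t + 1))))
    (hb' : Btw (pos (.pv (c * p.P + z))) (pos (.iv c j' t')) (pos (.iv c j' (t' + 1)))) :
    j = j' ∧ t = t' := by
  have l1 := (h.item_over hj ht z0 z1 hb).1
  have l2 := (h.item_over hj' ht' z0 z1 hb').1
  have u1 : p.In c (.iv c j t) := ⟨rfl, hj, ht.le⟩
  have u2 : p.In c (.iv c j (t + 1)) := ⟨rfl, hj, ht⟩
  have u3 : p.In c (.iv c j' t') := ⟨rfl, hj', ht'.le⟩
  have u4 : p.In c (.iv c j' (t' + 1)) := ⟨rfl, hj', ht'⟩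
  have k1 : ∀ j2 t2, p.In c (.iv c j2 t2) →
      ¬ Btw (pos (.iv c j2 t2)) (pos (.iv c j t)) (pos (.iv c j (t + 1))) := by
    intro j2 t2 hu hh
    have := h.ov' (adj_item h.hc hj ht) (Or.inl u1) (Or.inl u2) hu hh
    rw [l1] at this
    rcases this with this | this <;> omega
  have k2 : ∀ j2 t2, p.In c (.iv c j2 t2) →
      ¬ Btw (pos (.iv c j2 t2)) (pos (.iv c j' t')) (pos (.iv c j' (t' + 1))) := by
    intro j2 t2 hu hh
    have := h.ov' (adj_item h.hc hj' ht') (Or.inl u3) (Or.inl u4) hu hh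
    rw [l2] at this
    rcases this with this | this <;> omega
  have m1 := k1 _ _ u3
  have m2 := k1 _ _ u4
  have m3 := k2 _ _ u1
  have m4 := k2 _ _ u2
  have inj' : ∀ {x y : Vx}, p.In c x → p.In c y → pos x = pos y → x = y := fun hx hy e =>
    h.inj _ _ (hx.valid h.hc) (hy.valid h.hc) e
  unfold Btw at *
  have : (pos (.iv c j t) = pos (.iv c j' t')) ∨ (pos (.iv c j t) = pos (.iv c j' (t' + 1)) ∧
      pos (.iv c j (t + 1)) = pos (.iv c j' t')) := by omega
  rcases this with e | ⟨e1, e2⟩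
  · have := inj' u1 u3 e
    simp only [Vx.iv.injEq, true_and] at this
    exact this
  · have a1 := inj' u1 u4 e1
    have a2 := inj' u2 u3 e2
    simp only [Vx.iv.injEq, true_and] at a1 a2
    omega

theorem bad_card (X : Finset (ℕ × ℕ))
    (hX : ∀ x ∈ X, x.1 < p.m ∧ x.2 ≤ 6 * p.s x.1 ∧ lab (.rt c) (.iv c x.1 x.2) ≠ 1) :
    X.card ≤ 2 := by
  classical
  have hr : p.Cl c (.rt c) := Or.inl rfl
  have hu : ∀ x ∈ X, p.In c (.iv c x.1 x.2) := fun x hx => ⟨rfl, (hX x hx).1, (hX x hx).2.1⟩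
  have key : ∀ x ∈ X, ∀ y ∈ X, (pos (.rt c) < pos (.iv c x.1 x.2) ↔
      pos (.rt c) < pos (.iv c y.1 y.2)) → x = y := by
    intro x hx y hy hxy
    by_contra hne
    have n0 := h.ne_of (Or.inl (hu x hx)) (Or.inl (hu y hy)) (by
      intro e
      simp only [Vx.iv.injEq, true_and] at e
      exact hne (Prod.ext e.1 e.2))
    have n1 := h.ne_of hr (Or.inl (hu x hx)) (by simp)
    have n2 := h.ne_of hr (Or.inl (hu y hy)) (by simp)
    have b1 : ¬ Btw (pos (.iv c x.1 x.2)) (pos (.rt c)) (pos (.iv c y.1 y.2)) := fun hh =>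
      (hX y hy).2.2 (h.root_lab (hu y hy) (by simp) (hu x hx) hh)
    have b2 : ¬ Btw (pos (.iv c y.1 y.2)) (pos (.rt c)) (pos (.iv c x.1 x.2)) := fun hh =>
      (hX x hx).2.2 (h.root_lab (hu x hx) (by simp) (hu y hy) hh)
    unfold Btw at b1 b2
    omega
  calc X.card ≤ (univ : Finset Prop).card := by
        refine card_le_card_of_injOn (fun x => pos (.rt c) < pos (.iv c x.1 x.2))
          (fun _ _ => mem_univ _) fun x hx y hy e => key x hx y hy (iff_of_eq e)
    _ = 2 := by simp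

theorem pack (hs : ∀ j < p.m, 1 ≤ p.s j) : p.Pack := by
  classical
  let Phi : ℕ → ℕ → Prop := fun j b => b < p.K ∧
    ∀ b' ≤ p.K, pos (.pv (c * p.P + p.a b')) < pos (.iv c j 0) ↔ b' ≤ b
  have Phi_u : ∀ j b b', Phi j b → Phi j b' → b = b' := by
    intro j b b' h1 h2
    have e1 := (h2.2 b h1.1.le).1 ((h1.2 b h1.1.le).2 le_rfl)
    have e2 := (h1.2 b' h2.1.le).1 ((h2.2 b' h2.1.le).2 le_rfl)
    omega
  let f : ℕ → ℕ := fun j => if hh : ∃ b, Phi j b then hh.choose else p.K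
  have hf : ∀ j b, Phi j b → f j = b := by
    intro j b hb
    have hh : ∃ b, Phi j b := ⟨b, hb⟩
    simp only [f, dif_pos hh]
    exact Phi_u j _ _ hh.choose_spec hb
  have hfK : ∀ j, f j ≤ p.K := by
    intro j
    simp only [f]
    split_ifs with hh
    · exact hh.choose_spec.1.le
    · exact le_rfl
  have cnt : ∀ b, 6 * ∑ j ∈ (range p.m).filter (fun j => f j = b), p.s j ≤
      (if b < p.K then 6 * p.cap b + 1 else 0) + 4 := by
    intro b
    let Ed : Finset (ℕ × ℕ) := ((range p.m).filter (fun j => f j = b)).biUnion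
      fun j => (range (6 * p.s j)).image fun t => (j, t)
    have mE : ∀ x, x ∈ Ed ↔ x.1 < p.m ∧ f x.1 = b ∧ x.2 < 6 * p.s x.1 := by
      rintro ⟨j, t⟩
      simp only [Ed, mem_biUnion, mem_filter, mem_range, mem_image, Prod.mk.injEq]
      constructor
      · rintro ⟨j', ⟨h1, h2⟩, t', h3, rfl, rfl⟩
        exact ⟨h1, h2, h3⟩
      · rintro ⟨h1, h2, h3⟩
        exact ⟨j, ⟨h1, h2⟩, t, h3, rfl, rfl⟩
    have cE : Ed.card = 6 * ∑ j ∈ (range p.m).filter (fun j => f j = b), p.s j := by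
      rw [card_biUnion, mul_sum]
      · refine sum_congr rfl fun j _ => ?_
        rw [card_image_of_injective _ (fun t t' e => (Prod.ext_iff.1 e).2), card_range]
      · intro j _ j' _ hne
        rw [Function.onFun, disjoint_left]
        intro x h1 h2
        obtain ⟨t, _, rfl⟩ := mem_image.1 h1
        obtain ⟨t', _, e⟩ := mem_image.1 h2
        exact hne (Prod.ext_iff.1 e).1.symm
    let G := Ed.filter fun x => lab (.rt c) (.iv c x.1 x.2) = 1 ∧ lab (.rt c) (.iv c x.1 (x.2 + 1)) = 1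
    let B1 := Ed.filter fun x => lab (.rt c) (.iv c x.1 x.2) ≠ 1
    let B2 := Ed.filter fun x => lab (.rt c) (.iv c x.1 (x.2 + 1)) ≠ 1
    have sub : Ed ⊆ G ∪ (B1 ∪ B2) := by
      intro x hx
      simp only [G, B1, B2, mem_union, mem_filter]
      tauto
    have c1 : B1.card ≤ 2 := h.bad_card B1 fun x hx => by
      obtain ⟨h1, h2⟩ := mem_filter.1 hx
      obtain ⟨h3, -, h4⟩ := (mE x).1 h1
      exact ⟨h3, h4.le, h2⟩
    have c2 : B2.card ≤ 2 := by
      rw [← card_image_of_injective B2 (f := fun x : ℕ × ℕ => (x.1, x.2 + 1)) (by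
        intro x y e
        simp only [Prod.mk.injEq] at e
        exact Prod.ext e.1 (by omega))]
      refine h.bad_card _ fun y hy => ?_
      obtain ⟨x, hx, rfl⟩ := mem_image.1 hy
      obtain ⟨h1, h2⟩ := mem_filter.1 hx
      obtain ⟨h3, -, h4⟩ := (mE x).1 h1
      exact ⟨h3, h4, h2⟩
    have hG : ∀ x ∈ G, ∃ z, b < p.K ∧ p.a b < z ∧ z < p.a (b + 1) ∧
        Btw (pos (.pv (c * p.P + z))) (pos (.iv c x.1 x.2)) (pos (.iv c x.1 (x.2 + 1))) := by
      intro x hx
      obtain ⟨h1, h2, h3⟩ := mem_filter.1 hx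
      obtain ⟨h4, h5, h6⟩ := (mE x).1 h1
      obtain ⟨z, b', k1, k2, k3, k4, k5⟩ := h.good_edge h4 h6 h2 h3
      have := hf x.1 b' ⟨k1, k5⟩
      rw [h5] at this
      subst this
      exact ⟨z, k1, k2, k3, k4⟩
    have c3 : G.card ≤ if b < p.K then 6 * p.cap b + 1 else 0 := by
      split_ifs with hb
      · choose! z hz using hG
        calc G.card ≤ (Ioo (p.a b) (p.a (b + 1))).card := by
              refine card_le_card_of_injOn z
                (fun x hx => mem_Ioo.2 ⟨(hz x hx).2.1, (hz x hx).2.2.1⟩) fun x hx y hy e => ?_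
              obtain ⟨h4, -, h6⟩ := (mE x).1 (mem_filter.1 hx).1
              obtain ⟨h7, -, h8⟩ := (mE y).1 (mem_filter.1 hy).1
              have k1 := hz x hx
              have k2 := hz y hy
              have k3 := a_lt_P (p := p) (show b + 1 ≤ p.K from hb)
              have := h.edge_inj h4 h6 h7 h8 (z := z x) (by omega) (by omega) k1.2.2.2
                (by rw [e]; exact k2.2.2.2)
              exact Prod.ext this.1 this.2
          _ = _ := by rw [Nat.card_Ioo, a_succ]; omega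
      · rw [Nat.le_zero, card_eq_zero, eq_empty_iff_forall_notMem]
        intro x hx
        obtain ⟨z, k1, -⟩ := hG x hx
        exact hb k1
    have c4 := (card_le_card sub).trans ((card_union_le _ _).trans
      (Nat.add_le_add_left (card_union_le _ _) _))
    omega
  refine ⟨f, fun j hj => ?_, fun b hb => ?_⟩
  · by_contra hcon
    have e : f j = p.K := by have := hfK j; omega
    have h1 := cnt p.K
    rw [if_neg (lt_irrefl _)] at h1
    have h2 : p.s j ≤ ∑ j ∈ (range p.m).filter (fun j => f j = p.K), p.s j :=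
      single_le_sum (f := p.s) (fun _ _ => Nat.zero_le _) (mem_filter.2 ⟨mem_range.2 hj, e⟩)
    have := hs j hj
    omega
  · have h1 := cnt b
    rw [if_pos hb] at h1
    omega

end Par.Loc

end Pool.Agent.H236Z.Book
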